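import Mathlib
import Pool.Agent.H378R2.Defs

/-! Project Y826/Z (helper826): primes in residue classes to factorable moduli beyond the level `1/2`,
with several shifts (method of Zhang / Polymath 8a, one step of the `q`-van der Corput process).
Definitions. -/

open Finset Filter

namespace Pool.Agent.Y826.Z

/-- product of a tuple -/
def Pr {K : ℕ} (x : Fin K → ℕ) : ℕ := ∏ j, x j

/-- the divisibility conditions of a tuple -/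
def Cd {K : ℕ} (h : Fin K → ℤ) (x : Fin K → ℕ) (n : ℕ) : Prop := ∀ j, (x j : ℤ) ∣ (n : ℤ) + h j

open Classical in
/-- indicator -/
noncomputable def ind (P : Prop) : ℝ := if P then 1 else 0

/-- smooth part of a squarefree integer -/
def smp (D q : ℕ) : ℕ := ∏ p ∈ q.primeFactors.filter (fun p => p ≤ D), p

/-- rough part of a squarefree integer -/
def rop (D q : ℕ) : ℕ := ∏ p ∈ q.primeFactors.filter (fun p => D < p), p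

/-- smooth part of a tuple -/
def sm {K : ℕ} (D : ℕ) (x : Fin K → ℕ) : Fin K → ℕ := fun j => smp D (x j)

/-- rough part of a tuple -/
def ro {K : ℕ} (D : ℕ) (x : Fin K → ℕ) : Fin K → ℕ := fun j => rop D (x j)

/-- the fixed data: shifts `h`, the class `b` mod `W` -/
structure Hyp {K : ℕ} (h : Fin K → ℤ) (W b : ℕ) : Prop where
  wpos : 0 < W
  wsf : Squarefree W
  bW : b.Coprime W
  h1 : ∀ p : ℕ, p.Prime → ¬ p ∣ W → ∀ j, ¬ (p : ℤ) ∣ h j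

/-- the cut between smooth and rough -/
noncomputable def D0 (X : ℝ) (B : ℕ) : ℕ := ⌊(Real.log X) ^ B⌋₊

/-- the class of the tuple `q` minus its mean over the classes which agree at the smooth part -/
noncomputable def dl {K : ℕ} (h : Fin K → ℤ) (W b D : ℕ) (q : Fin K → ℕ) (n : ℕ) : ℝ :=
  ind (n ≡ b [MOD W] ∧ Cd h q n) -
    (1 / (Nat.totient (Pr (ro D q)) : ℝ)) *
      ind (n ≡ b [MOD W] ∧ Cd h (sm D q) n ∧ n.Coprime (Pr (ro D q)))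

/-- number of divisors, as a real number -/
noncomputable def tau (n : ℕ) : ℝ := (n.divisors.card : ℝ)

/-! ### Exponential sums -/

/-- the additive character `x ↦ e(x / p)` -/
noncomputable def ec (p : ℕ) (x : ZMod p) : ℂ :=
  Complex.exp (2 * Real.pi * Complex.I * (((x.val : ℝ) / (p : ℝ) : ℝ) : ℂ))

/-- `e(A / (n + c))` mod `p`; zero at the pole -/
noncomputable def lp (p : ℕ) (A c : ZMod p) (n : ℤ) : ℂ :=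
  open Classical in if (n : ZMod p) + c = 0 then 0 else ec p (A * ((n : ZMod p) + c)⁻¹)

/-- product of the local phases over a set of primes -/
noncomputable def PH (P : Finset ℕ) (A c : (p : ℕ) → ZMod p) (n : ℤ) : ℂ := ∏ p ∈ P, lp p (A p) (c p) n

/-- Weil's bound for `e_p(A/x - A/(x+c) + Bx)` -/
def S_WEIL : Prop := ∃ C : ℝ, 0 < C ∧ ∀ (p : ℕ) [Fact p.Prime] (A c B : ZMod p), A ≠ 0 → c ≠ 0 →
  ‖∑ x : ZMod p, if x = 0 ∨ x + c = 0 then (0 : ℂ) else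
    ZMod.stdAddChar (A * x⁻¹ - A * (x + c)⁻¹ + B * x)‖ ≤ C * Real.sqrt p

open Classical in
/-- incomplete sums of the differenced phases -/
def S_CINC : Prop := ∃ C : ℝ, 1 ≤ C ∧ ∀ (P : Finset ℕ), (∀ p ∈ P, p.Prime) →
  ∀ (A c : (p : ℕ) → ZMod p) (κ a : ℤ) (N : ℕ), 1 ≤ N →
  ‖∑ n ∈ Ico a (a + N), PH P A c (n + κ) * (starRingEnd ℂ) (PH P A c n)‖ ≤
    C ^ P.card * (N / ((∏ p ∈ P, p : ℕ) : ℝ) + 1 + Real.log ((∏ p ∈ P, p : ℕ) : ℝ)) *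
      Real.sqrt ((∏ p ∈ P, p : ℕ) : ℝ) *
      Real.sqrt ((∏ p ∈ P.filter (fun p => A p = 0 ∨ (κ : ZMod p) = 0), p : ℕ) : ℝ)

open Classical in
/-- the van der Corput step: `Z` is any function with period `d`, coprime to the primes of the phases -/
def S_VDC : Prop := ∀ ε : ℝ, 0 < ε → ∃ C : ℝ, 1 ≤ C ∧ ∀ (P : Finset ℕ), (∀ p ∈ P, p.Prime) →
  ∀ (A c : (p : ℕ) → ZMod p) (a : ℤ) (N d : ℕ), 1 ≤ d → d ≤ N → (∀ p ∈ P, ¬ p ∣ d) →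
  ∀ Z : ℤ → ℂ, (∀ n, Z (n + d) = Z n) → (∀ n, ‖Z n‖ ≤ 1) →
  ‖∑ n ∈ Ico a (a + N), Z n * PH P A c n‖ ^ 2 ≤
    C * ((N : ℝ) * ((∏ p ∈ P, p : ℕ) : ℝ)) ^ ε *
      ((N : ℝ) * d + N * Real.sqrt ((∏ p ∈ P.filter (fun p => A p = 0), p : ℕ) : ℝ) *
        (Real.sqrt ((∏ p ∈ P, p : ℕ) : ℝ) + N / Real.sqrt ((∏ p ∈ P, p : ℕ) : ℝ)))

/-! ### The dispersion method -/

/-- left condition: the class mod `W` and the tuples `a`, `r` -/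
def Lc {K : ℕ} (h : Fin K → ℤ) (W b : ℕ) (a r : Fin K → ℕ) (x : ℕ) : Prop :=
  x ≡ b [MOD W] ∧ Cd h a x ∧ Cd h r x

/-- right factor: the class of `u, v` minus the mean over the coprime classes -/
noncomputable def Du {K : ℕ} (h : Fin K → ℤ) (u v : Fin K → ℕ) (x : ℕ) : ℝ :=
  ind (Cd h u x ∧ Cd h v x) - (1 / (Nat.totient (Pr u * Pr v) : ℝ)) * ind (x.Coprime (Pr u * Pr v))

/-- nonzero frequencies mod `q` -/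
noncomputable def freq (q : ℕ) : Finset ℤ := (Ioc (-(q : ℤ)) q).filter (fun k => k ≠ 0 ∧ -(q : ℤ) < 2 * k ∧ 2 * k ≤ q)

/-- Fourier coefficient of the interval `(M, 2 M]` mod `q` -/
noncomputable def Ih (M q : ℕ) (k : ℤ) : ℂ :=
  (1 / (q : ℂ)) * ∑ m ∈ Ioc M (2 * M), Complex.exp (2 * Real.pi * Complex.I * ((-(k : ℝ) * m / q : ℝ) : ℂ))

/-- the sum over `m` as a combination of phases in `n₁` -/
def S_PH : Prop := ∀ (K : ℕ) (h : Fin K → ℤ) (W b : ℕ), Hyp h W b → ∀ (a r u1 u2 : Fin K → ℕ) (l : ℤ) (M : ℕ),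
  Squarefree (W * Pr a * Pr r * Pr u1 * Pr u2) →
  ∃ (n : ℕ) (ω : Fin n → ℝ) (A : Fin n → (p : ℕ) → ZMod p)
    (Z : Fin n → (Fin K → ℕ) → (Fin K → ℕ) → ℤ → ℤ → ℂ),
    (∑ ξ, |ω ξ| ≤ 4) ∧
    (∀ ξ (p : ℕ), p.Prime → p ∣ Pr r * Pr u1 * Pr u2 → A ξ p ≠ 0) ∧
    (∀ ξ v1 v2 k x, ‖Z ξ v1 v2 k x‖ ≤ 1) ∧
    (∀ ξ v1 v2 k x, Z ξ v1 v2 k (x + ((W * Pr a * Pr v1 * Pr v2 : ℕ) : ℤ)) = Z ξ v1 v2 k x) ∧
    ∀ v1 v2 : Fin K → ℕ, Squarefree (W * Pr a * Pr r * Pr u1 * Pr u2 * Pr v1 * Pr v2) →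
    ∀ n1 n2 : ℕ, (n2 : ℤ) = n1 + l * ((W * Pr a * Pr r : ℕ) : ℤ) →
      ((∑ m ∈ Ioc M (2 * M), ind (Lc h W b a r (m * n1)) * Du h u1 v1 (m * n1) * Du h u2 v2 (m * n2) : ℝ) : ℂ) =
      ∑ ξ, (ω ξ : ℂ) * ∑ k ∈ freq (W * Pr a * Pr r * Pr u1 * Pr u2 * Pr v1 * Pr v2),
        Ih M (W * Pr a * Pr r * Pr u1 * Pr u2 * Pr v1 * Pr v2) k * Z ξ v1 v2 k n1 *
        PH (Pr r * Pr u1 * Pr u2).primeFactors
          (fun p => (k : ZMod p) * ((W * Pr a * Pr r * Pr u1 * Pr u2 * Pr v1 * Pr v2 / p : ℕ) : ZMod p)⁻¹ * A ξ p)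
          (fun p => if p ∣ Pr u2 then ((l * ((W * Pr a * Pr r : ℕ) : ℤ) : ℤ) : ZMod p) else 0) n1

/-- sizes: the conditions on the lengths `M, N` and the sizes of the five parts of the modulus
(`RA, RB`: left; `E, U, V`: right; `RA, E, V` belong to the period killed by the van der Corput shift) -/
structure Sz (δ X : ℝ) (M N : ℕ) (RA RB E U V : ℝ) : Prop where
  mn1 : X / 16 ≤ (M : ℝ) * N
  mn2 : (M : ℝ) * N ≤ 16 * X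
  n1 : X ^ (1 / 4 : ℝ) ≤ N
  n2 : (N : ℝ) ≤ 16 * X ^ (1 / 2 : ℝ)
  ra : 0 < RA
  rb : 0 < RB
  e : 0 < E
  u : 0 < U
  v : 0 < V
  c1 : RA * RB ≤ N * X ^ (-δ)
  c2 : RA * RB * E ^ 2 * U ^ 2 ≤ M * X ^ (-δ)
  c3 : RA * E ^ 2 * V ^ 4 * (max 1 (RA * RB * E ^ 2 * U ^ 2 * V ^ 2 / M)) ^ 4 ≤ N * X ^ (-δ)
  c4 : RB * U ^ 2 * (max 1 (RA * RB * E ^ 2 * U ^ 2 * V ^ 2 / M)) ^ 8 ≤ (N : ℝ) ^ 2 * X ^ (-δ)
  c5 : (max 1 (RA * RB * E ^ 2 * U ^ 2 * V ^ 2 / M)) ^ 8 * X ^ δ ≤ RB * U ^ 2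

open Classical in
/-- restriction of a tuple to the coordinates in `G` -/
noncomputable def rs {K : ℕ} (G : Finset (Fin K)) (u : Fin K → ℕ) : Fin K → ℕ := fun j => if j ∈ G then u j else 1

/-- families of tuples and the coefficients; the coordinates of `u` in `G` form the part of size `E`,
the others the part of size `U` -/
structure Fm {K : ℕ} (ε X : ℝ) (W : ℕ) (RA RB E U V : ℝ) (G : Finset (Fin K)) (SA SB SU SV : Finset (Fin K → ℕ))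
    (th : (Fin K → ℕ) → ℝ) (c : (Fin K → ℕ) → (Fin K → ℕ) → (Fin K → ℕ) → (Fin K → ℕ) → ℝ) : Prop where
  cb : ∀ a r u v, |c a r u v| ≤ 1
  cs : ∀ a r u v, c a r u v ≠ 0 → Squarefree (W * Pr a * Pr r * Pr u * Pr v)
  th1 : ∀ a ∈ SA, 1 ≤ th a
  th2 : ∀ a ∈ SA, th a ≤ X ^ ε
  sa1 : ∀ a ∈ SA, RA * X ^ (-ε) ≤ Pr a
  sa2 : ∀ a ∈ SA, (Pr a : ℝ) ≤ RA * X ^ ε
  sb1 : ∀ r ∈ SB, RB * X ^ (-ε) ≤ Pr r
  sb2 : ∀ r ∈ SB, (Pr r : ℝ) ≤ RB * X ^ ε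
  se1 : ∀ u ∈ SU, E * X ^ (-ε) ≤ Pr (rs G u)
  se2 : ∀ u ∈ SU, (Pr (rs G u) : ℝ) ≤ E * X ^ ε
  su1 : ∀ u ∈ SU, U * X ^ (-ε) ≤ Pr (rs Gᶜ u)
  su2 : ∀ u ∈ SU, (Pr (rs Gᶜ u) : ℝ) ≤ U * X ^ ε
  sv1 : ∀ v ∈ SV, V * X ^ (-ε) ≤ Pr v
  sv2 : ∀ v ∈ SV, (Pr v : ℝ) ≤ V * X ^ ε
  sar : ∀ a ∈ SA, ∀ r ∈ SB, th a * (RA * RB) ≤ Pr a * Pr r

section
variable {K : ℕ} (h : Fin K → ℤ) (W b M N : ℕ) (SA SB SU SV : Finset (Fin K → ℕ))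
    (th : (Fin K → ℕ) → ℝ) (c : (Fin K → ℕ) → (Fin K → ℕ) → (Fin K → ℕ) → (Fin K → ℕ) → ℝ) (β : ℕ → ℝ)

/-- the dispersion sum -/
noncomputable def SS : ℝ :=
  ∑ a ∈ SA, ∑ r ∈ SB, th a * ∑ m ∈ Ioc M (2 * M),
    (∑ u ∈ SU, ∑ v ∈ SV, ∑ n ∈ Ioc N (2 * N),
      c a r u v * β n * ind (Lc h W b a r (m * n)) * Du h u v (m * n)) ^ 2

/-- its part with coprime right moduli and different `n₁, n₂` -/
noncomputable def Soff : ℝ :=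
  ∑ a ∈ SA, ∑ r ∈ SB, th a *
    ∑ u1 ∈ SU, ∑ v1 ∈ SV, ∑ u2 ∈ SU, ∑ v2 ∈ SV,
      ind ((Pr u1 * Pr v1).Coprime (Pr u2 * Pr v2)) * (c a r u1 v1 * c a r u2 v2 *
      ∑ n1 ∈ Ioc N (2 * N), ∑ n2 ∈ Ioc N (2 * N),
        ind (n1 ≠ n2 ∧ n1 ≡ n2 [MOD (W * Pr a * Pr r)]) * (β n1 * β n2 *
          ∑ m ∈ Ioc M (2 * M), ind (Lc h W b a r (m * n1)) * Du h u1 v1 (m * n1) * Du h u2 v2 (m * n2)))

end

/-- the off-diagonal terms -/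
def S_OFF : Prop := ∀ (K : ℕ) (h : Fin K → ℤ) (W b : ℕ), Hyp h W b → ∀ δ : ℝ, 0 < δ → ∃ ε : ℝ, 0 < ε ∧
  ∀ᶠ X : ℝ in atTop, ∀ (M N : ℕ) (RA RB E U V : ℝ), Sz δ X M N RA RB E U V →
  ∀ (G : Finset (Fin K)) (SA SB SU SV : Finset (Fin K → ℕ)) (th : (Fin K → ℕ) → ℝ)
    (c : (Fin K → ℕ) → (Fin K → ℕ) → (Fin K → ℕ) → (Fin K → ℕ) → ℝ),
    Fm ε X W RA RB E U V G SA SB SU SV th c →
  ∀ β : ℕ → ℝ, (∀ n ∈ Ioc N (2 * N), |β n| ≤ X ^ ε) →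
    |Soff h W b M N SA SB SU SV th c β| ≤ X ^ (-ε) * (M * (N : ℝ) ^ 2 / (RA * RB))

/-- the diagonal terms and the terms whose right moduli have a common prime factor -/
def S_TRIV : Prop := ∀ (K : ℕ) (h : Fin K → ℤ) (W b : ℕ), Hyp h W b → ∀ δ : ℝ, 0 < δ → ∃ ε : ℝ, 0 < ε ∧
  ∀ A : ℕ, ∃ B0 : ℕ, ∀ B : ℕ, B0 ≤ B →
  ∀ᶠ X : ℝ in atTop, ∀ (M N : ℕ) (RA RB E U V : ℝ), Sz δ X M N RA RB E U V →
  ∀ (G : Finset (Fin K)) (SA SB SU SV : Finset (Fin K → ℕ)) (th : (Fin K → ℕ) → ℝ)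
    (c : (Fin K → ℕ) → (Fin K → ℕ) → (Fin K → ℕ) → (Fin K → ℕ) → ℝ),
    Fm ε X W RA RB E U V G SA SB SU SV th c →
    (∀ u ∈ SU, ∀ p : ℕ, p.Prime → p ∣ Pr u → D0 X B < p) →
    (∀ v ∈ SV, ∀ p : ℕ, p.Prime → p ∣ Pr v → D0 X B < p) →
  ∀ β : ℕ → ℝ, (∀ n ∈ Ioc N (2 * N), |β n| ≤ tau n * Real.log X) →
    |SS h W b M N SA SB SU SV th c β - Soff h W b M N SA SB SU SV th c β| ≤
      (M * (N : ℝ) ^ 2 / (RA * RB)) / (Real.log X) ^ A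

/-- bilinear large sieve; the moduli have a smooth part -/
def S_BLS : Prop := ∃ C : ℕ, ∀ (X Y F D : ℕ) (α β : ℕ → ℝ) (T : Finset ℕ) (bt : ℕ → ℕ), 1 ≤ D → 2 ≤ F →
  (∀ t ∈ T, Squarefree t ∧ t ≤ F ∧ (bt t).Coprime t) →
  ∑ t ∈ T, |∑ m ∈ Icc 1 X, ∑ n ∈ Icc 1 Y, α m * β n *
      (ind (m * n ≡ bt t [MOD t]) -
        (1 / (Nat.totient (rop D t) : ℝ)) * ind (m * n ≡ bt t [MOD (smp D t)] ∧ (m * n).Coprime (rop D t)))| ≤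
    C * (1 + Real.log F) ^ C * (Real.sqrt (X * Y) / D + Real.sqrt X + Real.sqrt Y + F) *
      (Real.sqrt (∑ m ∈ Icc 1 X, α m ^ 2) * Real.sqrt (∑ n ∈ Icc 1 Y, β n ^ 2))

/-- sizes of the five parts -/
noncomputable def szg {K : ℕ} (Q : Fin K → ℝ) (g : Fin K → Fin 5) (i : Fin 5) : ℝ :=
  ∏ j ∈ univ.filter (fun j => g j = i), Q j

/-- bilinear forms -/
def S_TII : Prop := ∀ (K : ℕ) (h : Fin K → ℤ) (W b : ℕ), Hyp h W b → ∀ δ : ℝ, 0 < δ → ∃ ε : ℝ, 0 < ε ∧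
  ∀ A : ℕ, ∃ B0 : ℕ, ∀ B : ℕ, B0 ≤ B →
  ∀ᶠ X : ℝ in atTop, ∀ (M N : ℕ) (Q : Fin K → ℝ) (g : Fin K → Fin 5), (∀ j, 0 < Q j) →
    Sz δ X M N (szg Q g 0) (szg Q g 1) (szg Q g 2) (szg Q g 3) (szg Q g 4) →
  ∀ S : Finset (Fin K → ℕ), (∀ q ∈ S, Squarefree (W * Pr q) ∧ (∀ j, Q j < q j ∧ (q j : ℝ) ≤ 2 * Q j) ∧
      (Pr (sm (D0 X B) q) : ℝ) ≤ X ^ ε) →
  ∀ c : (Fin K → ℕ) → ℝ, (∀ q, |c q| ≤ 1) →
  ∀ α β : ℕ → ℝ, (∀ m ∈ Ioc M (2 * M), |α m| ≤ tau m * Real.log X) →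
    (∀ n ∈ Ioc N (2 * N), |β n| ≤ tau n * Real.log X) →
    |∑ q ∈ S, c q * ∑ m ∈ Ioc M (2 * M), ∑ n ∈ Ioc N (2 * N), α m * β n * dl h W b (D0 X B) q (m * n)| ≤
      X / (Real.log X) ^ A

/-- the grouping is possible for all the lengths -/
def GroupOK {K : ℕ} (δ X : ℝ) (Q : Fin K → ℝ) : Prop :=
  ∀ M N : ℕ, X / 16 ≤ (M : ℝ) * N → (M : ℝ) * N ≤ 16 * X → X ^ (1 / 3 : ℝ) / 16 ≤ N → (N : ℝ) ≤ 16 * X ^ (1 / 2 : ℝ) →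
    ∃ g : Fin K → Fin 5, Sz δ X M N (szg Q g 0) (szg Q g 1) (szg Q g 2) (szg Q g 3) (szg Q g 4)

/-- von Mangoldt function -/
def S_LAM : Prop := ∀ (K : ℕ) (h : Fin K → ℤ) (W b : ℕ), Hyp h W b → ∀ δ : ℝ, 0 < δ → ∃ ε : ℝ, 0 < ε ∧
  ∀ A : ℕ, ∃ B0 : ℕ, ∀ B : ℕ, B0 ≤ B →
  ∀ᶠ X : ℝ in atTop, ∀ (Q : Fin K → ℝ), (∀ j, 0 < Q j) → ∏ j, Q j ≤ X ^ (11 / 20 : ℝ) → GroupOK δ X Q →
  ∀ S : Finset (Fin K → ℕ), (∀ q ∈ S, Squarefree (W * Pr q) ∧ (∀ j, Q j < q j ∧ (q j : ℝ) ≤ 2 * Q j) ∧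
      (Pr (sm (D0 X B) q) : ℝ) ≤ X ^ ε) →
  ∀ c : (Fin K → ℕ) → ℝ, (∀ q, |c q| ≤ 1) →
    |∑ q ∈ S, c q * ∑ n ∈ Icc 1 ⌊3 * X⌋₊, H378R2.Phi (n / X) * ArithmeticFunction.vonMangoldt n *
      dl h W b (D0 X B) q n| ≤ X / (Real.log X) ^ A

/-- the residue classes of the tuples -/
def Cls {K : ℕ} (h : Fin K → ℤ) (W b : ℕ) (bq : (Fin K → ℕ) → ℕ) : Prop :=
  ∀ q : Fin K → ℕ, Squarefree (W * Pr q) → ∀ n : ℕ, (n ≡ bq q [MOD (W * Pr q)] ↔ n ≡ b [MOD W] ∧ Cd h q n)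

/-- one dyadic box -/
def S_Z : Prop := ∀ (K : ℕ) (h : Fin K → ℤ) (W b : ℕ), Hyp h W b → ∀ δ : ℝ, 0 < δ → ∀ A : ℕ,
  ∀ᶠ X : ℝ in atTop, ∀ (Q : Fin K → ℝ), (∀ j, 0 < Q j) → ∏ j, Q j ≤ X ^ (11 / 20 : ℝ) → GroupOK δ X Q →
  ∀ bq, Cls h W b bq →
  ∀ S : Finset (Fin K → ℕ), (∀ q ∈ S, Squarefree (W * Pr q) ∧ (∀ j, Q j < q j ∧ (q j : ℝ) ≤ 2 * Q j)) →
    ∑ q ∈ S, |H378R2.EPhi X (W * Pr q) (bq q)| ≤ X / (Real.log X) ^ A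

/-- the condition in terms of exponents -/
def GoodT {K : ℕ} (δ : ℝ) (t : Fin K → ℝ) : Prop :=
  ∀ x : Fin K → ℝ, (∀ j, -δ ≤ x j ∧ x j ≤ t j) → 1 / 2 - δ ≤ ∑ j, x j → ∀ ν : ℝ, 1 / 3 - δ ≤ ν → ν ≤ 1 / 2 + δ →
  ∃ g : Fin K → Fin 5, ∀ y : Fin 5 → ℝ, (∀ i, y i = ∑ j ∈ univ.filter (fun j => g j = i), x j) →
    ∀ η : ℝ, η = max 0 (y 0 + y 1 + 2 * y 2 + 2 * y 3 + 2 * y 4 - (1 - ν)) →
    y 0 + y 1 ≤ ν - δ ∧ y 0 + y 1 + 2 * y 2 + 2 * y 3 ≤ 1 - ν - δ ∧ y 0 + 2 * y 2 + 4 * y 4 + 4 * η ≤ ν - δ ∧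
      y 1 + 2 * y 3 + 8 * η ≤ 2 * ν - δ ∧ 8 * η + δ ≤ y 1 + 2 * y 3

open Classical in
/-- all the tuples up to given sizes, with divisor weights -/
def S_ZZ : Prop := ∀ (K : ℕ) (h : Fin K → ℤ) (W b : ℕ), Hyp h W b → ∀ (t : Fin K → ℝ), (∀ j, 0 ≤ t j) →
  ∑ j, t j ≤ 27 / 50 → (∃ δ : ℝ, 0 < δ ∧ GoodT δ t) → ∀ bq, Cls h W b bq → ∀ A C : ℕ,
  ∀ᶠ X : ℝ in atTop,
    ∑ q ∈ (Fintype.piFinset (fun j => Icc 1 ⌊X ^ (t j)⌋₊)).filter (fun q => Squarefree (W * Pr q)),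
      tau (Pr q) ^ C * |H378R2.EPhi X (W * Pr q) (bq q)| ≤ X / (Real.log X) ^ A

end Pool.Agent.Y826.Z
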