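import Mathlib
import Pool.Agent.Y826.Z.Defs

/-! Project Y826/Z: the off-diagonal terms for fixed outer variables. -/

open Finset Filter

namespace Pool.Agent.Y826.Z

/-- indices: frequencies of size `2 ^ i` and two tuples -/
noncomputable def Ix {K : ℕ} (i : ℕ) (SV : Finset (Fin K → ℕ)) : Finset (ℤ × (Fin K → ℕ) × (Fin K → ℕ)) :=
  ((Ioo (-(2 : ℤ) ^ (i + 1)) ((2 : ℤ) ^ (i + 1))).filter (fun k => (2 : ℤ) ^ i ≤ |k|)) ×ˢ (SV ×ˢ SV)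

/-- the determinant of two indices -/
def Dt {K : ℕ} (x y : ℤ × (Fin K → ℕ) × (Fin K → ℕ)) : ℤ :=
  x.1 * ((Pr y.2.1 * Pr y.2.2 : ℕ) : ℤ) - y.1 * ((Pr x.2.1 * Pr x.2.2 : ℕ) : ℤ)

/-- bound for one pair of indices; `D` bounds the common period, `d` is the modulus of the phases,
`g` the product of the degenerate primes -/
noncomputable def Bd (N D d g : ℝ) : ℝ :=
  Real.sqrt (N * D) + g ^ (1 / 4 : ℝ) * (Real.sqrt N * (d ^ (1 / 4 : ℝ) + Real.sqrt N / d ^ (1 / 4 : ℝ)))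

open Classical in
/-- fixed outer variables `a, r, u₁, u₂, e₁, e₂, l`; the right tuples are `u₁, e₁ * v₁` and `u₂, e₂ * v₂` -/
def S_OA : Prop := ∀ (K : ℕ) (h : Fin K → ℤ) (W b : ℕ), Hyp h W b → ∀ ε : ℝ, 0 < ε → ∃ C : ℝ, 1 ≤ C ∧
  ∀ (X : ℝ) (M N : ℕ) (a r u1 u2 e1 e2 : Fin K → ℕ) (l : ℤ) (SV : Finset (Fin K → ℕ))
    (κ : (Fin K → ℕ) → (Fin K → ℕ) → ℝ) (V1 q0 b0 : ℝ) (β : ℕ → ℝ),
  1 ≤ X → 1 ≤ N → (N : ℝ) ≤ X → (M : ℝ) ≤ X → Squarefree (W * Pr a * Pr r * Pr u1 * Pr u2) →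
  (∀ v ∈ SV, (Pr v : ℝ) ≤ V1) → (W * Pr a * Pr e1 * Pr e2 : ℝ) * V1 ^ 4 ≤ N → 0 < q0 → (∀ v1 v2, |κ v1 v2| ≤ 1) →
  (∀ v1 ∈ SV, ∀ v2 ∈ SV, κ v1 v2 ≠ 0 →
    Squarefree (W * Pr a * Pr r * Pr u1 * Pr u2 * Pr (e1 * v1) * Pr (e2 * v2)) ∧
    q0 ≤ ((W * Pr a * Pr r * Pr u1 * Pr u2 * Pr (e1 * v1) * Pr (e2 * v2) : ℕ) : ℝ) ∧
    ((W * Pr a * Pr r * Pr u1 * Pr u2 * Pr (e1 * v1) * Pr (e2 * v2) : ℕ) : ℝ) ≤ X) →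
  (∀ n ∈ Ioc N (2 * N), |β n| ≤ b0) →
  |∑ v1 ∈ SV, ∑ v2 ∈ SV, κ v1 v2 * ∑ n1 ∈ Ioc N (2 * N), ∑ n2 ∈ Ioc N (2 * N),
      ind ((n2 : ℤ) = n1 + l * ((W * Pr a * Pr r : ℕ) : ℤ)) * (β n1 * β n2 *
        ∑ m ∈ Ioc M (2 * M), ind (Lc h W b a r (m * n1)) * Du h u1 (e1 * v1) (m * n1) *
          Du h u2 (e2 * v2) (m * n2))| ≤
    C * X ^ ε * b0 ^ 2 * ∑ i ∈ range (Nat.log 2 ⌊X⌋₊ + 2), min (M / q0) (1 / (2 : ℝ) ^ i) *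
      Real.sqrt (N * (N * (((Ix i SV ×ˢ Ix i SV).filter (fun p => Dt p.1 p.2 = 0)).card : ℝ) +
        ∑ p ∈ (Ix i SV ×ˢ Ix i SV).filter (fun p => Dt p.1 p.2 ≠ 0),
          Bd N ((W * Pr a * Pr e1 * Pr e2 : ℝ) * V1 ^ 4) ((Pr r * Pr u1 * Pr u2 : ℕ) : ℝ)
            (Int.gcd (Dt p.1 p.2) ((Pr r * Pr u1 * Pr u2 : ℕ) : ℤ))))

end Pool.Agent.Y826.Z
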