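import Mathlib
import Pool.Agent.Y826.Z.Defs2
import Pool.Agent.H510R2.Div

/-! Project Y826/Z, job OB (helper520): counting lemmas for the off-diagonal terms. -/

open Finset Filter

namespace Pool.Agent.Y826.Z.OB

lemma tau_ge_one {n : ℕ} (hn : n ≠ 0) : 1 ≤ tau n := by
  unfold tau
  have : 0 < n.divisors.card := Finset.card_pos.2 ⟨1, Nat.one_mem_divisors.2 hn⟩
  exact_mod_cast this

lemma tau_nonneg (n : ℕ) : 0 ≤ tau n := by unfold tau; positivity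

/-- tuples with a given product -/
lemma mem_pi_divisors {K : ℕ} {x : Fin K → ℕ} {n : ℕ} (hn : n ≠ 0) (h : Pr x ∣ n) :
    x ∈ Fintype.piFinset (fun _ : Fin K => n.divisors) := by
  rw [Fintype.mem_piFinset]
  intro j
  rw [Nat.mem_divisors]
  exact ⟨(Finset.dvd_prod_of_mem x (Finset.mem_univ j)).trans h, hn⟩

lemma card_pi_divisors {K : ℕ} (n : ℕ) :
    ((Fintype.piFinset (fun _ : Fin K => n.divisors)).card : ℝ) = tau n ^ K := by
  rw [Fintype.card_piFinset_const]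
  unfold tau
  push_cast
  rfl

lemma card_fiber {K : ℕ} (S : Finset (Fin K → ℕ)) (n : ℕ) (hn : n ≠ 0) :
    ((S.filter (fun x => Pr x = n)).card : ℝ) ≤ tau n ^ K := by
  rw [← card_pi_divisors]
  exact_mod_cast Finset.card_le_card (fun x hx => by
    rw [Finset.mem_filter] at hx
    exact mem_pi_divisors hn (by rw [hx.2]))

/-- sums over tuples of functions of the product -/
lemma sum_tuple {K : ℕ} (S : Finset (Fin K → ℕ)) (R B : ℝ) (hR : ∀ x ∈ S, (Pr x : ℝ) ≤ R)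
    (h0 : ∀ x ∈ S, Pr x ≠ 0) (hB : ∀ n : ℕ, n ≠ 0 → (n : ℝ) ≤ R → tau n ^ K ≤ B)
    (f : ℕ → ℝ) (hf : ∀ n, 0 ≤ f n) :
    ∑ x ∈ S, f (Pr x) ≤ B * ∑ n ∈ Icc 1 ⌊R⌋₊, f n := by
  have hmaps : ∀ x ∈ S, Pr x ∈ Icc 1 ⌊R⌋₊ := by
    intro x hx
    rw [Finset.mem_Icc]
    exact ⟨Nat.one_le_iff_ne_zero.2 (h0 x hx), Nat.le_floor (hR x hx)⟩
  rw [← Finset.sum_fiberwise_of_maps_to hmaps, Finset.mul_sum]
  refine Finset.sum_le_sum fun n hn => ?_
  rw [Finset.mem_Icc] at hn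
  have hn0 : n ≠ 0 := by omega
  have h1 : ∑ x ∈ S.filter (fun x => Pr x = n), f (Pr x) = ((S.filter (fun x => Pr x = n)).card : ℝ) * f n := by
    rw [Finset.sum_congr rfl (fun x hx => by rw [(Finset.mem_filter.1 hx).2])]
    rw [Finset.sum_const, nsmul_eq_mul]
  rw [h1]
  refine mul_le_mul_of_nonneg_right ?_ (hf n)
  refine (card_fiber S n hn0).trans (hB n hn0 ?_)
  by_cases hR0 : 0 ≤ R
  · exact (Nat.le_floor_iff hR0).1 hn.2
  · exfalso
    have : ⌊R⌋₊ = 0 := Nat.floor_of_nonpos (not_le.1 hR0).le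
    omega

/-- sums of greatest common divisors -/
lemma sum_gcd (D : ℕ) (hD : D ≠ 0) (R : ℝ) (hR : 0 ≤ R) :
    ∑ n ∈ Icc 1 ⌊R⌋₊, (Nat.gcd D n : ℝ) ≤ tau D * R := by
  have h1 : ∀ n ∈ Icc 1 ⌊R⌋₊, (Nat.gcd D n : ℝ) ≤ ∑ g ∈ D.divisors, if g ∣ n then (g : ℝ) else 0 := by
    intro n _
    have hmem : Nat.gcd D n ∈ D.divisors := Nat.mem_divisors.2 ⟨Nat.gcd_dvd_left D n, hD⟩
    refine le_trans ?_ (Finset.single_le_sum (f := fun g : ℕ => if g ∣ n then (g : ℝ) else 0)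
      (fun g _ => by split_ifs <;> positivity) hmem)
    simp [Nat.gcd_dvd_right D n]
  refine (Finset.sum_le_sum h1).trans ?_
  rw [Finset.sum_comm]
  have h2 : ∀ g ∈ D.divisors, ∑ n ∈ Icc 1 ⌊R⌋₊, (if g ∣ n then (g : ℝ) else 0) ≤ R := by
    intro g hg
    have hg0 : 0 < g := Nat.pos_of_mem_divisors hg
    rw [← Finset.sum_filter, Finset.sum_const, nsmul_eq_mul]
    have h3 : ((Icc 1 ⌊R⌋₊).filter (fun n => g ∣ n)).card = ⌊R⌋₊ / g := by
      have := Nat.Ioc_filter_dvd_card_eq_div ⌊R⌋₊ g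
      rw [← this]
      rfl
    rw [h3]
    have h4 : ((⌊R⌋₊ / g : ℕ) : ℝ) ≤ (⌊R⌋₊ : ℝ) / g := Nat.cast_div_le
    have h5 : (⌊R⌋₊ : ℝ) ≤ R := Nat.floor_le hR
    have hg1 : (0 : ℝ) < g := by exact_mod_cast hg0
    calc ((⌊R⌋₊ / g : ℕ) : ℝ) * g ≤ (⌊R⌋₊ : ℝ) / g * g := by gcongr
      _ = ⌊R⌋₊ := by field_simp
      _ ≤ R := h5
  refine (Finset.sum_le_sum h2).trans ?_
  rw [Finset.sum_const, nsmul_eq_mul]
  rfl

/-- frequencies of size `2 ^ i` -/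
noncomputable def Kx (i : ℕ) : Finset ℤ :=
  (Ioo (-(2 : ℤ) ^ (i + 1)) ((2 : ℤ) ^ (i + 1))).filter (fun k => (2 : ℤ) ^ i ≤ |k|)

lemma card_Kx (i : ℕ) : ((Kx i).card : ℝ) ≤ 2 ^ (i + 2) := by
  have h1 : (Kx i).card ≤ 2 ^ (i + 2) := by
    refine (Finset.card_filter_le _ _).trans ?_
    rw [Int.card_Ioo]
    have : (2 : ℤ) ^ (i + 1) - -(2 : ℤ) ^ (i + 1) - 1 = (2 : ℤ) ^ (i + 2) - 1 := by ring
    rw [this]
    have h2 : (0 : ℤ) < 2 ^ (i + 2) := by positivity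
    have h3 : (((2 : ℤ) ^ (i + 2) - 1).toNat : ℤ) = (2 : ℤ) ^ (i + 2) - 1 :=
      Int.toNat_of_nonneg (by omega)
    have h4 : (((2 : ℤ) ^ (i + 2) - 1).toNat : ℤ) ≤ ((2 ^ (i + 2) : ℕ) : ℤ) := by
      rw [h3]; push_cast; omega
    exact_mod_cast h4
  exact_mod_cast h1

lemma Ix_eq {K : ℕ} (i : ℕ) (SV : Finset (Fin K → ℕ)) : Ix i SV = Kx i ×ˢ (SV ×ˢ SV) := rfl

lemma card_Ix {K : ℕ} (i : ℕ) (SV : Finset (Fin K → ℕ)) :
    ((Ix i SV).card : ℝ) ≤ 2 ^ (i + 2) * (SV.card : ℝ) ^ 2 := by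
  rw [Ix_eq, Finset.card_product, Finset.card_product]
  push_cast
  have := card_Kx i
  nlinarith [sq_nonneg (SV.card : ℝ), mul_le_mul_of_nonneg_right this (sq_nonneg (SV.card : ℝ))]

lemma Kx_ne {i : ℕ} {k : ℤ} (hk : k ∈ Kx i) : k ≠ 0 := by
  rintro rfl
  have := (Finset.mem_filter.1 hk).2
  have h2 : (0 : ℤ) < 2 ^ i := by positivity
  simp at this
  omega

lemma Kx_le {i : ℕ} {k : ℤ} (hk : k ∈ Kx i) : (|k| : ℝ) ≤ 2 ^ (i + 1) := by
  have h1 := (Finset.mem_filter.1 hk).1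
  rw [Finset.mem_Ioo] at h1
  have h2 : |k| ≤ (2 : ℤ) ^ (i + 1) := abs_le.2 ⟨h1.1.le, h1.2.le⟩
  exact_mod_cast h2

/-- pairs of indices with vanishing determinant -/
lemma card_Dt_zero {K : ℕ} (i : ℕ) (SV : Finset (Fin K → ℕ)) (V1 B : ℝ)
    (h0 : ∀ v ∈ SV, Pr v ≠ 0) (hV : ∀ v ∈ SV, (Pr v : ℝ) ≤ V1)
    (hB : ∀ n : ℕ, n ≠ 0 → (n : ℝ) ≤ 2 ^ (i + 1) * V1 ^ 2 → tau n ^ (2 * K) ≤ B) :
    (((Ix i SV ×ˢ Ix i SV).filter (fun p => Dt p.1 p.2 = 0)).card : ℝ) ≤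
      2 ^ (i + 2) * (SV.card : ℝ) ^ 2 * B := by
  classical
  set T : Finset ((ℤ × (Fin K → ℕ) × (Fin K → ℕ)) × (ℤ × (Fin K → ℕ) × (Fin K → ℕ))) :=
    (Ix i SV ×ˢ Ix i SV).filter (fun p => Dt p.1 p.2 = 0) with hT
  set φ : ((ℤ × (Fin K → ℕ) × (Fin K → ℕ)) × (ℤ × (Fin K → ℕ) × (Fin K → ℕ))) →
      ℤ × (Fin K → ℕ) × (Fin K → ℕ) := fun p => (p.2.1, p.1.2) with hφ
  have hmaps : ∀ p ∈ T, φ p ∈ Ix i SV := by
    intro p hp
    rw [hT, Finset.mem_filter, Finset.mem_product, Ix_eq] at hp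
    have b1 := (Finset.mem_product.1 hp.1.1).2
    have b2 := (Finset.mem_product.1 hp.1.2).1
    rw [Ix_eq, Finset.mem_product]
    exact ⟨b2, b1⟩
  have hcard := Finset.card_eq_sum_card_fiberwise hmaps
  have hfib : ∀ y ∈ Ix i SV, ((T.filter (fun p => φ p = y)).card : ℝ) ≤ B := by
    intro y hy
    rw [Ix_eq, Finset.mem_product, Finset.mem_product] at hy
    obtain ⟨hk, hv1, hv2⟩ := hy
    set n : ℕ := (y.1 * ((Pr y.2.1 * Pr y.2.2 : ℕ) : ℤ)).natAbs with hn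
    have hn0 : n ≠ 0 := by
      rw [hn, Int.natAbs_ne_zero]
      exact mul_ne_zero (Kx_ne hk) (by
        exact_mod_cast mul_ne_zero (h0 _ hv1) (h0 _ hv2))
    have hnle : (n : ℝ) ≤ 2 ^ (i + 1) * V1 ^ 2 := by
      have h1 : (n : ℝ) = |(y.1 : ℝ)| * ((Pr y.2.1 : ℝ) * (Pr y.2.2 : ℝ)) := by
        rw [hn, Int.natAbs_mul, Int.natAbs_natCast]
        push_cast
        rw [Nat.cast_natAbs]
        push_cast
        rfl
      rw [h1]
      have h2 := Kx_le hk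
      have h3 := hV _ hv1
      have h4 := hV _ hv2
      have h5 : (Pr y.2.1 : ℝ) * (Pr y.2.2 : ℝ) ≤ V1 ^ 2 := by
        rw [sq]
        exact mul_le_mul h3 h4 (by positivity) (le_trans (by positivity) h3)
      exact mul_le_mul h2 h5 (by positivity) (by positivity)
    refine le_trans ?_ (hB n hn0 hnle)
    have hinj : Set.InjOn (fun p : ((ℤ × (Fin K → ℕ) × (Fin K → ℕ)) × (ℤ × (Fin K → ℕ) × (Fin K → ℕ))) => p.2.2)
        (T.filter (fun p => φ p = y)) := by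
      intro p hp q hq hpq
      rw [Finset.mem_coe, Finset.mem_filter, hT, Finset.mem_filter, Finset.mem_product, Ix_eq,
        Finset.mem_product, Finset.mem_product, Finset.mem_product] at hp hq
      obtain ⟨⟨⟨hp1, hp2⟩, hp3⟩, hp4⟩ := hp
      obtain ⟨⟨⟨hq1, hq2⟩, hq3⟩, hq4⟩ := hq
      simp only [hφ] at hp4 hq4
      have hpq4 : (p.2.1, p.1.2) = (q.2.1, q.1.2) := hp4.trans hq4.symm
      have e1 : p.2.1 = q.2.1 := (Prod.ext_iff.1 hpq4).1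
      have e2 : p.1.2 = q.1.2 := (Prod.ext_iff.1 hpq4).2
      have e3 : p.2.2 = q.2.2 := hpq
      have e4 : p.1.1 = q.1.1 := by
        unfold Dt at hp3 hq3
        rw [e3, e1, e2] at hp3
        have h6 : ((Pr q.2.2.1 * Pr q.2.2.2 : ℕ) : ℤ) ≠ 0 := by
          have b1 : q.2.2 ∈ SV ×ˢ SV := (Finset.mem_product.1 (by simpa using hq2)).2
          rw [Finset.mem_product] at b1
          exact_mod_cast mul_ne_zero (h0 _ b1.1) (h0 _ b1.2)
        have h7 : p.1.1 * ((Pr q.2.2.1 * Pr q.2.2.2 : ℕ) : ℤ) = q.1.1 * ((Pr q.2.2.1 * Pr q.2.2.2 : ℕ) : ℤ) := by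
          linarith
        exact mul_right_cancel₀ h6 h7
      exact Prod.ext (Prod.ext e4 e2) (Prod.ext e1 e3)
    have hmaps2 : ∀ p ∈ T.filter (fun p => φ p = y), p.2.2 ∈
        (Fintype.piFinset (fun _ : Fin K => n.divisors)) ×ˢ (Fintype.piFinset (fun _ : Fin K => n.divisors)) := by
      intro p hp
      rw [Finset.mem_filter, hT, Finset.mem_filter] at hp
      obtain ⟨⟨hp1, hp3⟩, hp4⟩ := hp
      simp only [hφ] at hp4
      have e1 : p.2.1 = y.1 := by rw [← hp4]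
      have e2 : p.1.2 = y.2 := by rw [← hp4]
      unfold Dt at hp3
      rw [e1, e2] at hp3
      have h8 : ((Pr p.2.2.1 * Pr p.2.2.2 : ℕ) : ℤ) ∣ y.1 * ((Pr y.2.1 * Pr y.2.2 : ℕ) : ℤ) :=
        ⟨p.1.1, by linarith⟩
      have h9 : Pr p.2.2.1 * Pr p.2.2.2 ∣ n := by
        rw [hn]
        exact Int.natCast_dvd.1 h8
      rw [Finset.mem_product]
      exact ⟨mem_pi_divisors hn0 ((Dvd.intro _ rfl).trans h9),
        mem_pi_divisors hn0 ((Dvd.intro_left _ rfl).trans h9)⟩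
    have h10 := Finset.card_le_card_of_injOn _ hmaps2 hinj
    have h11 : ((((Fintype.piFinset (fun _ : Fin K => n.divisors)) ×ˢ
        (Fintype.piFinset (fun _ : Fin K => n.divisors))).card : ℕ) : ℝ) = tau n ^ (2 * K) := by
      rw [Finset.card_product]
      push_cast
      rw [card_pi_divisors]
      ring
    rw [← h11]
    exact_mod_cast h10
  have h12 : (T.card : ℝ) ≤ ((Ix i SV).card : ℝ) * B := by
    rw [hcard]
    push_cast
    refine (Finset.sum_le_sum hfib).trans ?_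
    rw [Finset.sum_const, nsmul_eq_mul]
  refine h12.trans ?_
  by_cases hI : (Ix i SV).Nonempty
  · obtain ⟨y, hy⟩ := hI
    have hB0 : 0 ≤ B := le_trans (by positivity) (hfib y hy)
    exact mul_le_mul_of_nonneg_right (card_Ix i SV) hB0
  · rw [Finset.not_nonempty_iff_eq_empty] at hI
    by_cases hS : SV.Nonempty
    · exfalso
      obtain ⟨v, hv⟩ := hS
      have : ((2 : ℤ) ^ i, (v, v)) ∈ Ix i SV := by
        rw [Ix_eq, Finset.mem_product, Finset.mem_product]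
        refine ⟨?_, hv, hv⟩
        unfold Kx
        rw [Finset.mem_filter, Finset.mem_Ioo]
        have h13 : (0 : ℤ) < 2 ^ i := by positivity
        have h14 : (2 : ℤ) ^ (i + 1) = 2 * 2 ^ i := by ring
        simp only
        refine ⟨⟨by omega, by omega⟩, le_abs_self _⟩
      rw [hI] at this
      simp at this
    · rw [Finset.not_nonempty_iff_eq_empty] at hS
      rw [hI, hS]
      simp

end Pool.Agent.Y826.Z.OB
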