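import Mathlib
import Pool.Agent.Y826.Z.OB4

/-! Project Y826/Z, job OB (helper520): the off-diagonal terms, deterministic part. -/

open Finset Filter

namespace Pool.Agent.Y826.Z.OB

lemma Dt_le {K : ℕ} (i : ℕ) (SV : Finset (Fin K → ℕ)) (V1 : ℝ) (hV : ∀ v ∈ SV, (Pr v : ℝ) ≤ V1)
    (p : (ℤ × (Fin K → ℕ) × (Fin K → ℕ)) × (ℤ × (Fin K → ℕ) × (Fin K → ℕ)))
    (hp : p ∈ Ix i SV ×ˢ Ix i SV) : ((Dt p.1 p.2).natAbs : ℝ) ≤ 2 * (2 ^ (i + 1) * V1 ^ 2) := by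
  rw [Finset.mem_product, Ix_eq] at hp
  obtain ⟨hp1, hp2⟩ := hp
  rw [Finset.mem_product, Finset.mem_product] at hp1 hp2
  have key : ∀ (k : ℤ) (v w : Fin K → ℕ), k ∈ Kx i → v ∈ SV → w ∈ SV →
      |(k : ℝ) * ((Pr v : ℝ) * (Pr w : ℝ))| ≤ 2 ^ (i + 1) * V1 ^ 2 := by
    intro k v w hk hv hw
    rw [abs_mul, abs_of_nonneg (by positivity : (0 : ℝ) ≤ (Pr v : ℝ) * (Pr w : ℝ))]
    have h5 : (Pr v : ℝ) * (Pr w : ℝ) ≤ V1 ^ 2 := by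
      rw [sq]
      exact mul_le_mul (hV _ hv) (hV _ hw) (by positivity) (le_trans (by positivity) (hV _ hv))
    exact mul_le_mul (Kx_le hk) h5 (by positivity) (by positivity)
  have h1 := key p.1.1 p.2.2.1 p.2.2.2 hp1.1 hp2.2.1 hp2.2.2
  have h2 := key p.2.1 p.1.2.1 p.1.2.2 hp2.1 hp1.2.1 hp1.2.2
  have h3 : ((Dt p.1 p.2).natAbs : ℝ) = |(p.1.1 : ℝ) * ((Pr p.2.2.1 : ℝ) * (Pr p.2.2.2 : ℝ)) -
      (p.2.1 : ℝ) * ((Pr p.1.2.1 : ℝ) * (Pr p.1.2.2 : ℝ))| := by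
    unfold Dt
    rw [Nat.cast_natAbs]
    push_cast
    rfl
  rw [h3]
  have h4 := abs_sub (a := (p.1.1 : ℝ) * ((Pr p.2.2.1 : ℝ) * (Pr p.2.2.2 : ℝ)))
    (b := (p.2.1 : ℝ) * ((Pr p.1.2.1 : ℝ) * (Pr p.1.2.2 : ℝ)))
  linarith

lemma two_pow_le (X : ℝ) (hX : 1 ≤ X) (i : ℕ) (hi : i ∈ range (Nat.log 2 ⌊X⌋₊ + 2)) :
    (2 : ℝ) ^ (i + 1) ≤ 4 * X := by
  rw [Finset.mem_range] at hi
  have hm : ⌊X⌋₊ ≠ 0 := by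
    have : 1 ≤ ⌊X⌋₊ := Nat.le_floor (by simpa using hX)
    omega
  have h1 : (2 : ℝ) ^ (i + 1) ≤ 2 ^ (Nat.log 2 ⌊X⌋₊ + 2) :=
    pow_le_pow_right₀ (by norm_num) (by omega)
  have h2 : (2 : ℕ) ^ Nat.log 2 ⌊X⌋₊ ≤ ⌊X⌋₊ := Nat.pow_log_le_self 2 hm
  have h3 : ((2 : ℕ) ^ Nat.log 2 ⌊X⌋₊ : ℝ) ≤ (⌊X⌋₊ : ℝ) := by exact_mod_cast h2
  have h4 : (⌊X⌋₊ : ℝ) ≤ X := Nat.floor_le (by linarith)
  calc (2 : ℝ) ^ (i + 1) ≤ 2 ^ (Nat.log 2 ⌊X⌋₊ + 2) := h1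
    _ = 4 * ((2 : ℕ) ^ Nat.log 2 ⌊X⌋₊ : ℝ) := by rw [pow_add]; push_cast; ring
    _ ≤ 4 * X := by linarith

/-- the bound of one dyadic range of frequencies -/
lemma wt_le (M N V Λ B q0 : ℝ) (i : ℕ) (hM : 0 ≤ M) (hN : 0 ≤ N) (hV : 0 ≤ V) (hΛ : 4 ≤ Λ) (hB : 0 ≤ B)
    (hq0 : 0 < q0) :
    min (M / q0) (1 / (2 : ℝ) ^ i) * Real.sqrt (N * (N * (2 ^ (i + 2) * (V * Λ ^ 2) ^ 2 * Λ) +
      (2 ^ (i + 2) * (V * Λ ^ 2) ^ 2) ^ 2 * (Λ ^ 3 * B))) ≤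
    Real.sqrt ((M / q0) * (N ^ 2 * V ^ 2 * Λ ^ 7) + N * V ^ 4 * Λ ^ 15 * B) := by
  set w := min (M / q0) (1 / (2 : ℝ) ^ i) with hw
  have hw0 : 0 ≤ w := by rw [hw]; exact le_min (by positivity) (by positivity)
  have h1 : w ≤ M / q0 := min_le_left _ _
  have h2 : w ≤ 1 / (2 : ℝ) ^ i := min_le_right _ _
  have h2' : w * 2 ^ i ≤ 1 := by
    rw [le_div_iff₀ (by positivity)] at h2
    exact h2
  have hx : (0 : ℝ) < 2 ^ i := by positivity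
  have h3 : w * (w * 2 ^ i) ≤ M / q0 := by
    calc w * (w * 2 ^ i) ≤ w * 1 := mul_le_mul_of_nonneg_left h2' hw0
      _ ≤ M / q0 := by linarith
  have h4 : (w * 2 ^ i) ^ 2 ≤ 1 := by
    calc (w * 2 ^ i) ^ 2 ≤ 1 ^ 2 := pow_le_pow_left₀ (by positivity) h2' 2
      _ = 1 := by norm_num
  have hΛ0 : 0 < Λ := by linarith
  have e2 : (4 : ℝ) ≤ Λ ^ 2 := by nlinarith
  have e4 : (16 : ℝ) ≤ Λ ^ 4 := by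
    calc (16 : ℝ) = 4 * 4 := by norm_num
      _ ≤ Λ ^ 2 * Λ ^ 2 := mul_le_mul e2 e2 (by norm_num) (by positivity)
      _ = Λ ^ 4 := by ring
  apply Real.le_sqrt_of_sq_le
  rw [mul_pow, Real.sq_sqrt (by positivity)]
  have p1 : w ^ 2 * (N * (N * (2 ^ (i + 2) * (V * Λ ^ 2) ^ 2 * Λ))) ≤ (M / q0) * (N ^ 2 * V ^ 2 * Λ ^ 7) := by
    calc w ^ 2 * (N * (N * (2 ^ (i + 2) * (V * Λ ^ 2) ^ 2 * Λ)))
        = (w * (w * 2 ^ i)) * (N ^ 2 * V ^ 2 * Λ ^ 5 * 4) := by ring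
      _ ≤ (M / q0) * (N ^ 2 * V ^ 2 * Λ ^ 5 * Λ ^ 2) := by gcongr
      _ = _ := by ring
  have p2 : w ^ 2 * (N * ((2 ^ (i + 2) * (V * Λ ^ 2) ^ 2) ^ 2 * (Λ ^ 3 * B))) ≤ N * V ^ 4 * Λ ^ 15 * B := by
    calc w ^ 2 * (N * ((2 ^ (i + 2) * (V * Λ ^ 2) ^ 2) ^ 2 * (Λ ^ 3 * B)))
        = (w * 2 ^ i) ^ 2 * (N * V ^ 4 * Λ ^ 11 * B * 16) := by ring
      _ ≤ 1 * (N * V ^ 4 * Λ ^ 11 * B * Λ ^ 4) := by gcongr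
      _ = _ := by ring
  calc w ^ 2 * (N * (N * (2 ^ (i + 2) * (V * Λ ^ 2) ^ 2 * Λ) + (2 ^ (i + 2) * (V * Λ ^ 2) ^ 2) ^ 2 * (Λ ^ 3 * B)))
      = w ^ 2 * (N * (N * (2 ^ (i + 2) * (V * Λ ^ 2) ^ 2 * Λ))) +
        w ^ 2 * (N * ((2 ^ (i + 2) * (V * Λ ^ 2) ^ 2) ^ 2 * (Λ ^ 3 * B))) := by ring
    _ ≤ _ := add_le_add p1 p2

/-- from the bound for fixed outer variables to the sum -/
lemma soff_le {K : ℕ} (h : Fin K → ℤ) (W b M N : ℕ) (SA SB SU SV : Finset (Fin K → ℕ))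
    (th : (Fin K → ℕ) → ℝ) (c : (Fin K → ℕ) → (Fin K → ℕ) → (Fin K → ℕ) → (Fin K → ℕ) → ℝ) (β : ℕ → ℝ)
    (L : ℕ) (hp : ∀ a ∈ SA, ∀ r ∈ SB, 0 < W * Pr a * Pr r ∧ N / (W * Pr a * Pr r) ≤ L)
    (Λ : ℝ) (hΛ : 0 ≤ Λ) (hth : ∀ a ∈ SA, |th a| ≤ Λ)
    (G : (Fin K → ℕ) × (Fin K → ℕ) × (Fin K → ℕ) × (Fin K → ℕ) → ℝ)
    (hG : ∀ a ∈ SA, ∀ r ∈ SB, ∀ u1 ∈ SU, ∀ u2 ∈ SU, ∀ l : ℤ,
      |TT h W b M N SV c β a r u1 u2 l| ≤ G (a, r, u1, u2)) :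
    |Soff h W b M N SA SB SU SV th c β| ≤ Λ * (2 * L) * ∑ o ∈ OO SA SB SU, G o := by
  rw [soff_eq h W b M N SA SB SU SV th c β L hp]
  have hS : ∑ o ∈ OO SA SB SU, G o = ∑ a ∈ SA, ∑ r ∈ SB, ∑ u1 ∈ SU, ∑ u2 ∈ SU, G (a, r, u1, u2) := by
    unfold OO
    rw [Finset.sum_product]
    refine Finset.sum_congr rfl fun a _ => ?_
    rw [Finset.sum_product]
    refine Finset.sum_congr rfl fun r _ => ?_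
    rw [Finset.sum_product]
  rw [hS, Finset.mul_sum]
  refine (Finset.abs_sum_le_sum_abs _ _).trans (Finset.sum_le_sum fun a ha => ?_)
  rw [Finset.mul_sum]
  refine (Finset.abs_sum_le_sum_abs _ _).trans (Finset.sum_le_sum fun r hr => ?_)
  rw [abs_mul]
  have h1 : |∑ u1 ∈ SU, ∑ u2 ∈ SU, ∑ l ∈ Ls L, TT h W b M N SV c β a r u1 u2 l| ≤
      (2 * L) * ∑ u1 ∈ SU, ∑ u2 ∈ SU, G (a, r, u1, u2) := by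
    rw [Finset.mul_sum]
    refine (Finset.abs_sum_le_sum_abs _ _).trans (Finset.sum_le_sum fun u1 hu1 => ?_)
    rw [Finset.mul_sum]
    refine (Finset.abs_sum_le_sum_abs _ _).trans (Finset.sum_le_sum fun u2 hu2 => ?_)
    refine (Finset.abs_sum_le_sum_abs _ _).trans ?_
    refine (Finset.sum_le_sum fun l _ => hG a ha r hr u1 hu1 u2 hu2 l).trans ?_
    rw [Finset.sum_const, nsmul_eq_mul]
    exact mul_le_mul_of_nonneg_right (card_Ls L) (le_trans (abs_nonneg _) (hG a ha r hr u1 hu1 u2 hu2 0))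
  calc |th a| * |∑ u1 ∈ SU, ∑ u2 ∈ SU, ∑ l ∈ Ls L, TT h W b M N SV c β a r u1 u2 l|
      ≤ Λ * ((2 * L) * ∑ u1 ∈ SU, ∑ u2 ∈ SU, G (a, r, u1, u2)) :=
        mul_le_mul (hth a ha) h1 (abs_nonneg _) hΛ
    _ = _ := by ring

end Pool.Agent.Y826.Z.OB
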