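import Mathlib
import Pool.Agent.Helper112.Bilinear
import Pool.Agent.H441R3.BV.Dy
import Pool.Agent.Y826.Z.Defs

/-! Project Y826/Z, job BLS: the bilinear large sieve for moduli with a smooth part. -/

open Finset

namespace Pool.Agent.Y826.Z

namespace BLS

open Pool.Agent.Helper112.BLB

lemma smp_mul_rop (D t : ℕ) (ht : Squarefree t) : smp D t * rop D t = t := by
  unfold smp rop
  have h := prod_filter_mul_prod_filter_not t.primeFactors (fun p => p ≤ D) (fun p => p)
  simp only [not_le] at h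
  rw [h, Nat.prod_primeFactors_of_squarefree ht]

lemma char_inv (m : ℕ) (χ : DirichletCharacter ℂ m) (a : ZMod m) (ha : IsUnit a) :
    χ (a⁻¹) = (χ a)⁻¹ := by
  have h1 : a⁻¹ * a = 1 := ZMod.inv_mul_of_unit a ha
  have h2 : χ (a⁻¹) * χ a = 1 := by rw [← map_mul, h1, map_one]
  exact eq_inv_of_mul_eq_one_left h2

open Classical in
lemma orth (m : ℕ) [NeZero m] (a : ℕ) (ha : a.Coprime m) (n : ℕ) :
    ∑ χ : DirichletCharacter ℂ m, χ ((a : ZMod m)⁻¹) * χ (n : ZMod m) =
      if n ≡ a [MOD m] then (Nat.totient m : ℂ) else 0 := by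
  have hau : IsUnit (a : ZMod m) := (ZMod.isUnit_iff_coprime a m).mpr ha
  rw [DirichletCharacter.sum_char_inv_mul_char_eq ℂ hau (n : ZMod m)]
  have h5 : (n ≡ a [MOD m]) ↔ ((a : ZMod m) = (n : ZMod m)) := by
    rw [← ZMod.natCast_eq_natCast_iff, eq_comm]
  simp only [h5]

lemma change_nat {f m : ℕ} (h : f ∣ m) (ψ : DirichletCharacter ℂ f) (n : ℕ) (hn : n.Coprime m) :
    DirichletCharacter.changeLevel h ψ (n : ZMod m) = ψ (n : ZMod f) := by
  have h1 := DirichletCharacter.changeLevel_eq_cast_of_dvd' ψ h (a := (n : ℤ))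
    (by exact_mod_cast Nat.isCoprime_iff_coprime.mpr hn)
  push_cast at h1
  exact h1

open Classical in
lemma bracket (t s r : ℕ) [NeZero t] (hsr : s * r = t) (hc : s.Coprime r) (b : ℕ) (hb : b.Coprime t)
    (n : ℕ) :
    ((ind (n ≡ b [MOD t]) - (1 / (Nat.totient r : ℝ)) * ind (n ≡ b [MOD s] ∧ n.Coprime r) : ℝ) : ℂ) =
    (1 / (Nat.totient t : ℂ)) *
      ∑ χ ∈ (univ : Finset (DirichletCharacter ℂ t)).filter (fun χ => ¬ χ.FactorsThrough s),
        χ ((b : ZMod t)⁻¹) * χ (n : ZMod t) := by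
  have hst : s ∣ t := ⟨r, hsr.symm⟩
  have hrt : r ∣ t := ⟨s, by rw [mul_comm]; exact hsr.symm⟩
  have ht0 : t ≠ 0 := NeZero.ne t
  have hs0 : s ≠ 0 := by rintro rfl; simp at hsr; exact ht0 hsr.symm
  have hr0 : r ≠ 0 := by rintro rfl; simp at hsr; exact ht0 hsr.symm
  have : NeZero s := ⟨hs0⟩
  have : NeZero r := ⟨hr0⟩
  have hbs : b.Coprime s := Nat.Coprime.coprime_dvd_right hst hb
  have hφs : (Nat.totient s : ℂ) ≠ 0 := by
    exact_mod_cast (Nat.totient_pos.mpr (Nat.pos_of_ne_zero hs0)).ne'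
  have hφr : (Nat.totient r : ℂ) ≠ 0 := by
    exact_mod_cast (Nat.totient_pos.mpr (Nat.pos_of_ne_zero hr0)).ne'
  have hφ : (Nat.totient t : ℂ) = (Nat.totient s : ℂ) * (Nat.totient r : ℂ) := by
    rw [← hsr, Nat.totient_mul hc]; push_cast; ring
  have hbu : IsUnit (b : ZMod t) := (ZMod.isUnit_iff_coprime b t).mpr hb
  have hbus : IsUnit (b : ZMod s) := (ZMod.isUnit_iff_coprime b s).mpr hbs
  -- the characters which factor through `s`
  have h3 : ∑ χ ∈ (univ : Finset (DirichletCharacter ℂ t)).filter (fun χ => χ.FactorsThrough s),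
      χ ((b : ZMod t)⁻¹) * χ (n : ZMod t) =
      if n ≡ b [MOD s] ∧ n.Coprime r then (Nat.totient s : ℂ) else 0 := by
    have e : (univ : Finset (DirichletCharacter ℂ t)).filter (fun χ => χ.FactorsThrough s) =
        (univ : Finset (DirichletCharacter ℂ s)).image (DirichletCharacter.changeLevel hst) := by
      ext χ
      simp only [mem_filter, mem_univ, true_and, mem_image]
      constructor
      · intro h
        exact ⟨h.χ₀, h.eq_changeLevel.symm⟩
      · rintro ⟨ψ, rfl⟩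
        exact DirichletCharacter.changeLevel_factorsThrough ψ hst
    rw [e, sum_image (fun x _ y _ hxy => DirichletCharacter.changeLevel_injective hst hxy)]
    by_cases hn : n.Coprime t
    · have hnr : n.Coprime r := Nat.Coprime.coprime_dvd_right hrt hn
      have h4 : ∀ ψ ∈ (univ : Finset (DirichletCharacter ℂ s)),
          DirichletCharacter.changeLevel hst ψ ((b : ZMod t)⁻¹) *
            DirichletCharacter.changeLevel hst ψ (n : ZMod t) =
          ψ ((b : ZMod s)⁻¹) * ψ (n : ZMod s) := by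
        intro ψ _
        rw [char_inv t _ _ hbu, change_nat hst ψ b hb, change_nat hst ψ n hn, char_inv s _ _ hbus]
      rw [sum_congr rfl h4, orth s b hbs n]
      by_cases h6 : n ≡ b [MOD s]
      · rw [if_pos h6, if_pos ⟨h6, hnr⟩]
      · rw [if_neg h6, if_neg (fun h => h6 h.1)]
    · have h4 : ∀ ψ ∈ (univ : Finset (DirichletCharacter ℂ s)),
          DirichletCharacter.changeLevel hst ψ ((b : ZMod t)⁻¹) *
            DirichletCharacter.changeLevel hst ψ (n : ZMod t) = 0 := by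
        intro ψ _
        rw [MulChar.map_nonunit (DirichletCharacter.changeLevel hst ψ) (a := (n : ZMod t))
          (fun hu => hn ((ZMod.isUnit_iff_coprime n t).mp hu)), mul_zero]
      rw [sum_congr rfl h4, sum_const_zero, if_neg]
      rintro ⟨h6, h7⟩
      apply hn
      have h8 : n.Coprime s := by
        have := h6.gcd_eq
        rw [Nat.Coprime, this]; exact hbs
      rw [← hsr]
      exact Nat.Coprime.mul_right h8 h7
  have h2 := sum_filter_add_sum_filter_not (univ : Finset (DirichletCharacter ℂ t))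
    (fun χ => χ.FactorsThrough s) (fun χ => χ ((b : ZMod t)⁻¹) * χ (n : ZMod t))
  rw [h3, orth t b hb n] at h2
  have h4 := eq_sub_of_add_eq' h2
  rw [h4]
  unfold ind
  by_cases h5 : n ≡ b [MOD t] <;> by_cases h6 : n ≡ b [MOD s] ∧ n.Coprime r
  · rw [if_pos h5, if_pos h6, if_pos h5, if_pos h6, hφ]; push_cast; field_simp
  · rw [if_pos h5, if_neg h6, if_pos h5, if_neg h6, hφ]; push_cast; field_simp; ring
  · rw [if_neg h5, if_pos h6, if_neg h5, if_pos h6, hφ]; push_cast; field_simp; ring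
  · rw [if_neg h5, if_neg h6, if_neg h5, if_neg h6]; push_cast; ring

open Classical in
lemma step1 (X Y : ℕ) (α β : ℕ → ℝ) (t s r : ℕ) [NeZero t] (hsr : s * r = t) (hc : s.Coprime r)
    (b : ℕ) (hb : b.Coprime t) :
    |∑ m ∈ Icc 1 X, ∑ n ∈ Icc 1 Y, α m * β n *
        (ind (m * n ≡ b [MOD t]) -
          (1 / (Nat.totient r : ℝ)) * ind (m * n ≡ b [MOD s] ∧ (m * n).Coprime r))| ≤
    (1 / (Nat.totient t : ℝ)) *
      ∑ χ ∈ (univ : Finset (DirichletCharacter ℂ t)).filter (fun χ => ¬ χ.FactorsThrough s),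
        ‖A X α t χ‖ * ‖A Y β t χ‖ := by
  have key : ((∑ m ∈ Icc 1 X, ∑ n ∈ Icc 1 Y, α m * β n *
        (ind (m * n ≡ b [MOD t]) -
          (1 / (Nat.totient r : ℝ)) * ind (m * n ≡ b [MOD s] ∧ (m * n).Coprime r)) : ℝ) : ℂ) =
      (1 / (Nat.totient t : ℂ)) *
      ∑ χ ∈ (univ : Finset (DirichletCharacter ℂ t)).filter (fun χ => ¬ χ.FactorsThrough s),
        χ ((b : ZMod t)⁻¹) * (A X α t χ * A Y β t χ) := by
    rw [Complex.ofReal_sum]
    simp_rw [Complex.ofReal_sum]
    have : ∀ m ∈ Icc 1 X, ∀ n ∈ Icc 1 Y, ((α m * β n *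
        (ind (m * n ≡ b [MOD t]) -
          (1 / (Nat.totient r : ℝ)) * ind (m * n ≡ b [MOD s] ∧ (m * n).Coprime r)) : ℝ) : ℂ) =
        ∑ χ ∈ (univ : Finset (DirichletCharacter ℂ t)).filter (fun χ => ¬ χ.FactorsThrough s),
          (1 / (Nat.totient t : ℂ)) * (χ ((b : ZMod t)⁻¹) *
            (((α m : ℂ) * χ (m : ZMod t)) * ((β n : ℂ) * χ (n : ZMod t)))) := by
      intro m _ n _
      rw [Complex.ofReal_mul, bracket t s r hsr hc b hb (m * n), mul_sum, mul_sum]
      apply sum_congr rfl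
      intro χ _
      push_cast
      rw [map_mul]
      ring
    rw [sum_congr rfl fun m hm => sum_congr rfl fun n hn => this m hm n hn]
    rw [sum_congr rfl fun m _ => sum_comm, sum_comm, mul_sum]
    apply sum_congr rfl
    intro χ _
    unfold A
    rw [sum_mul_sum, mul_sum, mul_sum]
    apply sum_congr rfl
    intro m _
    rw [mul_sum, mul_sum]
  rw [← Real.norm_eq_abs, ← Complex.norm_real, key, norm_mul]
  have h1 : ‖(1 / (Nat.totient t : ℂ))‖ = 1 / (Nat.totient t : ℝ) := by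
    rw [norm_div, norm_one, Complex.norm_natCast]
  rw [h1]
  apply mul_le_mul_of_nonneg_left _ (by positivity)
  refine (norm_sum_le _ _).trans (sum_le_sum ?_)
  intro χ _
  rw [norm_mul, norm_mul]
  have : ‖χ ((b : ZMod t)⁻¹)‖ ≤ 1 := χ.norm_le_one _
  calc ‖χ ((b : ZMod t)⁻¹)‖ * (‖A X α t χ‖ * ‖A Y β t χ‖) ≤ 1 * (‖A X α t χ‖ * ‖A Y β t χ‖) :=
        mul_le_mul_of_nonneg_right this (by positivity)
    _ = _ := one_mul _

open Classical in
lemma step2 (m s : ℕ) [NeZero m] (hs : s ∣ m) (w : DirichletCharacter ℂ m → ℝ) (hw : ∀ χ, 0 ≤ w χ)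
    (W : (f : ℕ) → DirichletCharacter ℂ f → ℝ)
    (hW : ∀ f (h : f ∣ m) (ψ : DirichletCharacter ℂ f),
      w (DirichletCharacter.changeLevel h ψ) ≤ W f ψ) :
    ∑ χ ∈ (univ : Finset (DirichletCharacter ℂ m)).filter (fun χ => ¬ χ.FactorsThrough s), w χ ≤
      ∑ f ∈ m.divisors.filter (fun f => ¬ f ∣ s),
        ∑ ψ ∈ (univ : Finset (DirichletCharacter ℂ f)).filter (fun χ => χ.IsPrimitive), W f ψ := by
  have h1 : ∀ χ ∈ (univ : Finset (DirichletCharacter ℂ m)).filter (fun χ => ¬ χ.FactorsThrough s),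
      χ.conductor ∈ m.divisors.filter (fun f => ¬ f ∣ s) := by
    intro χ hχ
    rw [mem_filter] at hχ ⊢
    refine ⟨Nat.mem_divisors.mpr ⟨χ.conductor_dvd_level, NeZero.ne m⟩, ?_⟩
    intro h
    exact hχ.2 ((DirichletCharacter.mem_conductorSet_iff_conductor_dvd χ hs).mpr h)
  rw [← sum_fiberwise_of_maps_to h1]
  apply sum_le_sum
  intro f hf
  rw [mem_filter, Nat.mem_divisors] at hf
  have hfm := hf.1.1
  have h2 : (((univ : Finset (DirichletCharacter ℂ m)).filter (fun χ => ¬ χ.FactorsThrough s)).filter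
      (fun χ => χ.conductor = f)) ⊆
      ((univ : Finset (DirichletCharacter ℂ f)).filter (fun χ => χ.IsPrimitive)).image
        (DirichletCharacter.changeLevel hfm) := by
    intro χ hχ
    rw [mem_filter] at hχ
    obtain ⟨_, hc⟩ := hχ
    subst hc
    rw [mem_image]
    exact ⟨χ.primitiveCharacter, by
      rw [mem_filter]; exact ⟨mem_univ _, χ.primitiveCharacter_isPrimitive⟩,
      χ.changeLevel_primitiveCharacter⟩
  calc _ ≤ ∑ χ ∈ ((univ : Finset (DirichletCharacter ℂ f)).filter (fun χ => χ.IsPrimitive)).image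
        (DirichletCharacter.changeLevel hfm), w χ :=
        sum_le_sum_of_subset_of_nonneg h2 fun χ _ _ => hw χ
    _ = ∑ ψ ∈ (univ : Finset (DirichletCharacter ℂ f)).filter (fun χ => χ.IsPrimitive),
        w (DirichletCharacter.changeLevel hfm ψ) := by
        rw [sum_image]
        intro x _ y _ hxy
        exact DirichletCharacter.changeLevel_injective hfm hxy
    _ ≤ _ := sum_le_sum fun ψ _ => hW f hfm ψ

open Classical in
lemma step12 (X Y : ℕ) (α β : ℕ → ℝ) (t s r : ℕ) (ht : t ≠ 0) (hsr : s * r = t) (hc : s.Coprime r)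
    (b : ℕ) (hb : b.Coprime t) :
    |∑ m ∈ Icc 1 X, ∑ n ∈ Icc 1 Y, α m * β n *
        (ind (m * n ≡ b [MOD t]) -
          (1 / (Nat.totient r : ℝ)) * ind (m * n ≡ b [MOD s] ∧ (m * n).Coprime r))| ≤
    ∑ f ∈ t.divisors.filter (fun f => ¬ f ∣ s),
      (1 / (Nat.totient t : ℝ)) * P X Y (res (t / f) α) (res (t / f) β) f := by
  have : NeZero t := ⟨ht⟩
  refine (step1 X Y α β t s r hsr hc b hb).trans ?_
  rw [← mul_sum]
  apply mul_le_mul_of_nonneg_left _ (by positivity)
  apply step2 t s ⟨r, hsr.symm⟩ (fun χ => ‖A X α t χ‖ * ‖A Y β t χ‖) (fun χ => by positivity)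
    (fun f ψ => ‖A X (res (t / f) α) f ψ‖ * ‖A Y (res (t / f) β) f ψ‖)
  intro f h ψ
  obtain ⟨g, rfl⟩ := h
  have hf : 0 < f := by
    rcases Nat.eq_zero_or_pos f with h | h
    · subst h; simp at ht
    · exact h
  rw [Nat.mul_div_cancel_left g hf, A_changeLevel, A_changeLevel]

/-- a divisor of `t` which does not divide the smooth part is large -/
lemma big (D t : ℕ) (ht : Squarefree t) (f : ℕ) (hf : f ∣ t) (hfs : ¬ f ∣ smp D t) : D ≤ f := by
  by_contra hlt
  apply hfs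
  have hfsq : Squarefree f := ht.squarefree_of_dvd hf
  have hf0 : 0 < f := Nat.pos_of_ne_zero hfsq.ne_zero
  rw [← Nat.prod_primeFactors_of_squarefree hfsq]
  unfold smp
  apply Finset.prod_dvd_prod_of_subset
  intro p hp
  rw [mem_filter]
  refine ⟨Nat.primeFactors_mono hf ht.ne_zero hp, ?_⟩
  have := Nat.le_of_dvd hf0 (Nat.dvd_of_mem_primeFactors hp)
  omega

end BLS

open BLS Pool.Agent.Helper112.BLB in
theorem bls : S_BLS := by
  refine ⟨12, ?_⟩
  intro X Y F D α β T bt hD hF hT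
  set Tn := Real.sqrt (∑ b ∈ Icc 1 X, α b ^ 2) * Real.sqrt (∑ c ∈ Icc 1 Y, β c ^ 2) with hTn
  have hT0 : 0 ≤ Tn := by positivity
  set Z := Real.sqrt (X * Y) / D + (Real.sqrt X + Real.sqrt Y) + F with hZ
  have hZ0 : 0 ≤ Z := by positivity
  have hlog : 0 ≤ Real.log F := Real.log_natCast_nonneg F
  set G : ℕ → ℕ → ℝ := fun g f => (1 / (Nat.totient g : ℝ)) * ((1 / (Nat.totient f : ℝ)) *
    P X Y (res g α) (res g β) f) with hG
  have hG0 : ∀ g f, 0 ≤ G g f := fun g f =>
    mul_nonneg (by positivity) (mul_nonneg (by positivity) (P_nonneg _ _ _ _ _))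
  have s3 : ∑ t ∈ T, |∑ m ∈ Icc 1 X, ∑ n ∈ Icc 1 Y, α m * β n *
      (ind (m * n ≡ bt t [MOD t]) -
        (1 / (Nat.totient (rop D t) : ℝ)) * ind (m * n ≡ bt t [MOD (smp D t)] ∧ (m * n).Coprime (rop D t)))| ≤
      ∑ t ∈ T, ∑ f ∈ t.divisors.filter (fun f => ¬ f ∣ smp D t), G (t / f) f := by
    apply sum_le_sum
    intro t ht
    obtain ⟨hs, hle, hcop⟩ := hT t ht
    have hm0 : t ≠ 0 := hs.ne_zero
    have hsr := smp_mul_rop D t hs
    have hc : (smp D t).Coprime (rop D t) := by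
      apply Nat.coprime_of_squarefree_mul
      rw [hsr]; exact hs
    refine (step12 X Y α β t (smp D t) (rop D t) hm0 hsr hc (bt t) hcop).trans ?_
    apply sum_le_sum
    intro f hf
    rw [mem_filter, Nat.mem_divisors] at hf
    obtain ⟨⟨⟨g, hg⟩, -⟩, hf1⟩ := hf
    have hf0 : 0 < f := Nat.pos_of_ne_zero (by rintro rfl; simp at hg; exact hm0 hg)
    have e1 : t / f = g := by rw [hg, Nat.mul_div_cancel_left g hf0]
    have hcop2 : f.Coprime g := Nat.coprime_of_squarefree_mul (by rw [← hg]; exact hs)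
    have e2 : Nat.totient t = Nat.totient f * Nat.totient g := by rw [hg, Nat.totient_mul hcop2]
    rw [e1, e2, hG]
    apply le_of_eq
    push_cast
    rw [one_div_mul_eq_div, one_div_mul_eq_div, one_div_mul_eq_div, div_div, mul_comm]
  refine s3.trans ?_
  have s4 : ∑ t ∈ T, ∑ f ∈ t.divisors.filter (fun f => ¬ f ∣ smp D t), G (t / f) f ≤
      ∑ g ∈ Icc 1 F, ∑ f ∈ Icc D F, G g f := by
    rw [sum_sigma', ← sum_product']
    have e6 : ∑ x ∈ T.sigma (fun t => t.divisors.filter (fun f => ¬ f ∣ smp D t)), G (x.1 / x.2) x.2 =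
        ∑ p ∈ (T.sigma (fun t => t.divisors.filter (fun f => ¬ f ∣ smp D t))).image
          (fun x : (_ : ℕ) × ℕ => (x.1 / x.2, x.2)), G p.1 p.2 := by
      rw [sum_image]
      rintro ⟨m, f⟩ hx ⟨m', f'⟩ hx' heq
      simp only [Finset.mem_coe, mem_sigma, mem_filter, Nat.mem_divisors] at hx hx'
      simp only [Prod.mk.injEq] at heq
      obtain ⟨h7, h8⟩ := heq
      subst h8
      have : m = m' := by
        rw [← Nat.div_mul_cancel hx.2.1.1, h7, Nat.div_mul_cancel hx'.2.1.1]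
      subst this
      rfl
    rw [e6]
    apply sum_le_sum_of_subset_of_nonneg
    · intro p hp
      rw [mem_image] at hp
      obtain ⟨⟨m, f⟩, hx, rfl⟩ := hp
      simp only [mem_sigma, mem_filter, Nat.mem_divisors] at hx
      obtain ⟨hs, hle, hcop⟩ := hT m hx.1
      have hm0 : 0 < m := Nat.pos_of_ne_zero hs.ne_zero
      have hfm := hx.2.1.1
      have hf0 : 0 < f := Nat.pos_of_dvd_of_pos hfm hm0
      simp only [mem_product, mem_Icc]
      refine ⟨⟨Nat.div_pos (Nat.le_of_dvd hm0 hfm) hf0, (Nat.div_le_self m f).trans hle⟩,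
        big D m hs f hfm hx.2.2, (Nat.le_of_dvd hm0 hfm).trans hle⟩
    · intro p _ _
      exact hG0 _ _
  refine s4.trans ?_
  have s5 : ∀ g ∈ Icc 1 F, ∑ f ∈ Icc D F, G g f ≤
      (1 / (Nat.totient g : ℝ)) * (12 * (1 + Real.log F) * Z * Tn) := by
    intro g _
    rw [hG, ← mul_sum]
    have h8 := step45 X Y (res g α) (res g β) D F hD (by omega)
    have h9 : Real.sqrt (∑ b ∈ Icc 1 X, res g α b ^ 2) * Real.sqrt (∑ c ∈ Icc 1 Y, res g β c ^ 2) ≤ Tn :=
      mul_le_mul (res_sq _ _ _) (res_sq _ _ _) (Real.sqrt_nonneg _) (Real.sqrt_nonneg _)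
    have h10 : ∑ f ∈ Icc D F, (1 / (Nat.totient f : ℝ)) * P X Y (res g α) (res g β) f ≤
        12 * (1 + Real.log F) * Z * Tn :=
      h8.trans (mul_le_mul_of_nonneg_left h9 (by positivity))
    exact mul_le_mul_of_nonneg_left h10 (by positivity)
  refine (sum_le_sum s5).trans ?_
  rw [← sum_mul]
  have s6 : ∑ j ∈ Icc 1 F, (1 / (Nat.totient j : ℝ)) ≤ (1 + Real.log F) ^ 2 :=
    Pool.Agent.H441R3.BV.sum_inv_tot F
  have hpow : (1 + Real.log F) ^ 3 ≤ (1 + Real.log F) ^ 12 :=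
    pow_le_pow_right₀ (by linarith) (by norm_num)
  have hZe : Z = Real.sqrt (X * Y) / D + Real.sqrt X + Real.sqrt Y + F := by rw [hZ]; ring
  calc (∑ j ∈ Icc 1 F, (1 / (Nat.totient j : ℝ))) * (12 * (1 + Real.log F) * Z * Tn) ≤
      (1 + Real.log F) ^ 2 * (12 * (1 + Real.log F) * Z * Tn) :=
        mul_le_mul_of_nonneg_right s6 (by positivity)
    _ = 12 * (1 + Real.log F) ^ 3 * Z * Tn := by ring
    _ ≤ 12 * (1 + Real.log F) ^ 12 * Z * Tn := by gcongr
    _ = _ := by rw [hZe]; push_cast; ring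

end Pool.Agent.Y826.Z
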