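import Mathlib
import Pool.Agent.Y826.Z.Defs

/-! Project Y826/Z: complete and incomplete sums of the differenced phases (`S_CINC` from `S_WEIL`), by
helper888. -/

open Finset

namespace Pool.Agent.Y826.Z

namespace CInc

/-- `e(θ)` -/
noncomputable def ex (θ : ℝ) : ℂ := Complex.exp (2 * Real.pi * Complex.I * (θ : ℂ))

lemma ex_add (a b : ℝ) : ex (a + b) = ex a * ex b := by
  unfold ex
  rw [← Complex.exp_add]
  congr 1
  push_cast
  ring

lemma ex_zero : ex 0 = 1 := by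
  unfold ex
  simp

lemma ex_int (n : ℤ) : ex n = 1 := by
  unfold ex
  rw [Complex.exp_eq_one_iff]
  exact ⟨n, by push_cast; ring⟩

lemma norm_ex (a : ℝ) : ‖ex a‖ = 1 := by
  unfold ex
  have : (2 * Real.pi * Complex.I * (a : ℂ)) = ((2 * Real.pi * a : ℝ) : ℂ) * Complex.I := by
    push_cast
    ring
  rw [this, Complex.norm_exp_ofReal_mul_I]

lemma ex_pow (a : ℝ) (n : ℕ) : ex (n * a) = ex a ^ n := by
  induction n with
  | zero => simp [ex_zero]
  | succ n ih =>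
    rw [pow_succ, ← ih, ← ex_add]
    congr 1
    push_cast
    ring

lemma ex_sum {ι : Type*} (s : Finset ι) (f : ι → ℝ) : ex (∑ i ∈ s, f i) = ∏ i ∈ s, ex (f i) := by
  classical
  induction s using Finset.induction_on with
  | empty => simp [ex_zero]
  | insert i s hi ih => rw [Finset.sum_insert hi, Finset.prod_insert hi, ex_add, ih]

/-- `|e(θ) - 1| ≥ 4 min(θ, 1 - θ)` -/
lemma norm_ex_sub_one {θ : ℝ} (h0 : 0 ≤ θ) (h1 : θ ≤ 1) : 4 * min θ (1 - θ) ≤ ‖ex θ - 1‖ := by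
  have h2 : ‖ex θ - 1‖ = ‖2 * Real.sin (Real.pi * θ)‖ := by
    have h3 := Complex.norm_exp_I_mul_ofReal_sub_one (2 * Real.pi * θ)
    unfold ex
    rw [show (2 * Real.pi * Complex.I * (θ : ℂ)) = Complex.I * ((2 * Real.pi * θ : ℝ) : ℂ) by
      push_cast; ring, h3]
    congr 3
    ring
  rw [h2]
  have hpi := Real.pi_pos
  have h4 : 0 ≤ Real.sin (Real.pi * θ) :=
    Real.sin_nonneg_of_nonneg_of_le_pi (by positivity) (by nlinarith)
  rw [Real.norm_of_nonneg (by positivity)]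
  rcases le_total θ (1 / 2) with h5 | h5
  · have h6 : 2 / Real.pi * (Real.pi * θ) ≤ Real.sin (Real.pi * θ) :=
      Real.mul_le_sin (by positivity) (by nlinarith)
    have h7 : 2 / Real.pi * (Real.pi * θ) = 2 * θ := by field_simp
    have h8 := min_le_left θ (1 - θ)
    linarith
  · have h6 : 2 / Real.pi * (Real.pi * (1 - θ)) ≤ Real.sin (Real.pi * (1 - θ)) :=
      Real.mul_le_sin (by nlinarith) (by nlinarith)
    have h7 : 2 / Real.pi * (Real.pi * (1 - θ)) = 2 * (1 - θ) := by field_simp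
    have h9 : Real.sin (Real.pi * (1 - θ)) = Real.sin (Real.pi * θ) := by
      rw [show Real.pi * (1 - θ) = Real.pi - Real.pi * θ by ring, Real.sin_pi_sub]
    have h8 := min_le_right θ (1 - θ)
    linarith

/-- the linear exponential sum over an interval -/
noncomputable def T (a : ℤ) (N : ℕ) (θ : ℝ) : ℂ := ∑ n ∈ Ico a (a + N), ex ((n : ℝ) * θ)

lemma T_eq (a : ℤ) (N : ℕ) (θ : ℝ) : T a N θ = ex (a * θ) * ∑ i ∈ range N, ex θ ^ i := by
  unfold T
  rw [Finset.mul_sum]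
  refine Finset.sum_nbij' (fun n => (n - a).toNat) (fun i => a + (i : ℤ)) ?_ ?_ ?_ ?_ ?_
  · intro n hn
    rw [Finset.mem_Ico] at hn
    rw [Finset.mem_range]
    omega
  · intro i hi
    rw [Finset.mem_range] at hi
    rw [Finset.mem_Ico]
    omega
  · intro n hn
    rw [Finset.mem_Ico] at hn
    omega
  · intro i hi
    simp
  · intro n hn
    rw [Finset.mem_Ico] at hn
    rw [← ex_pow, ← ex_add]
    congr 1
    have h1 : (((n - a).toNat : ℕ) : ℝ) = (n : ℝ) - a := by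
      have h2 : (((n - a).toNat : ℕ) : ℤ) = n - a := Int.toNat_of_nonneg (by omega)
      have h3 : ((((n - a).toNat : ℕ) : ℤ) : ℝ) = ((n - a : ℤ) : ℝ) := by rw [h2]
      push_cast at h3
      exact h3
    rw [h1]
    ring

lemma norm_T_le (a : ℤ) (N : ℕ) (θ : ℝ) : ‖T a N θ‖ ≤ N := by
  unfold T
  refine (norm_sum_le _ _).trans ?_
  simp [norm_ex]

lemma norm_T_le' (a : ℤ) (N : ℕ) {θ : ℝ} (h0 : 0 < θ) (h1 : θ < 1) :
    ‖T a N θ‖ ≤ 1 / (2 * θ) + 1 / (2 * (1 - θ)) := by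
  have h2 := norm_ex_sub_one h0.le h1.le
  have h3 : 0 < min θ (1 - θ) := lt_min h0 (by linarith)
  have h4 : ex θ ≠ 1 := by
    intro h
    rw [h, sub_self, norm_zero] at h2
    linarith
  rw [T_eq, norm_mul, norm_ex, one_mul, geom_sum_eq h4, norm_div]
  have h5 : ‖ex θ ^ N - 1‖ ≤ 2 := by
    refine (norm_sub_le _ _).trans ?_
    rw [norm_pow, norm_ex, norm_one, one_pow]
    norm_num
  have h6 : ‖ex θ ^ N - 1‖ / ‖ex θ - 1‖ ≤ 2 / (4 * min θ (1 - θ)) :=
    div_le_div₀ (by norm_num) h5 (by positivity) h2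
  refine h6.trans ?_
  have h7 : 0 < 1 - θ := by linarith
  rcases min_choice θ (1 - θ) with h8 | h8
  · rw [h8]
    have : 2 / (4 * θ) = 1 / (2 * θ) := by field_simp; norm_num
    rw [this]
    have : 0 < 1 / (2 * (1 - θ)) := by positivity
    linarith
  · rw [h8]
    have : 2 / (4 * (1 - θ)) = 1 / (2 * (1 - θ)) := by field_simp; norm_num
    rw [this]
    have : 0 < 1 / (2 * θ) := by positivity
    linarith

lemma sum_inv_le (D : ℕ) : ∑ j ∈ Ico 1 D, (1 : ℝ) / j ≤ 1 + Real.log D := by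
  have h1 := harmonic_le_one_add_log D
  refine le_trans ?_ h1
  have h2 : ((harmonic D : ℚ) : ℝ) = ∑ j ∈ Ico 1 (D + 1), (1 : ℝ) / j := by
    rw [harmonic, Finset.sum_Ico_eq_sum_range]
    push_cast
    refine Finset.sum_congr (by simp) fun i _ => ?_
    rw [one_div]
    congr 1
    ring
  rw [h2]
  exact Finset.sum_le_sum_of_subset_of_nonneg (Finset.Ico_subset_Ico le_rfl (by omega))
    fun i _ _ => by positivity

lemma sum_inv_le' (D : ℕ) : ∑ j ∈ Ico 1 D, (1 : ℝ) / ((D : ℝ) - j) ≤ 1 + Real.log D := by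
  refine le_trans (le_of_eq ?_) (sum_inv_le D)
  refine Finset.sum_nbij' (fun j => D - j) (fun j => D - j) ?_ ?_ ?_ ?_ ?_
  · intro j hj
    rw [Finset.mem_Ico] at hj ⊢
    omega
  · intro j hj
    rw [Finset.mem_Ico] at hj ⊢
    omega
  · intro j hj
    rw [Finset.mem_Ico] at hj
    omega
  · intro j hj
    rw [Finset.mem_Ico] at hj
    omega
  · intro j hj
    rw [Finset.mem_Ico] at hj
    rw [Nat.cast_sub (by omega)]

/-- completion -/
lemma sum_T (a : ℤ) (N D : ℕ) (hD : 1 ≤ D) :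
    ∑ j ∈ range D, ‖T a N ((j : ℝ) / D)‖ ≤ N + D * (1 + Real.log D) := by
  have hDR : (0 : ℝ) < D := by exact_mod_cast hD
  rw [Finset.range_eq_Ico, Finset.sum_eq_sum_Ico_succ_bot (by omega)]
  refine add_le_add (norm_T_le _ _ _) ?_
  rw [zero_add]
  have h1 : ∀ j ∈ Ico 1 D, ‖T a N ((j : ℝ) / D)‖ ≤ (D / 2) * (1 / (j : ℝ)) + (D / 2) * (1 / ((D : ℝ) - j)) := by
    intro j hj
    rw [Finset.mem_Ico] at hj
    have hj0 : (0 : ℝ) < j := by exact_mod_cast (by omega : 0 < j)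
    have hj1 : (j : ℝ) < D := by exact_mod_cast hj.2
    have h2 := norm_T_le' a N (θ := (j : ℝ) / D) (by positivity) ((div_lt_one hDR).2 hj1)
    refine h2.trans (le_of_eq ?_)
    have h3 : (D : ℝ) - j ≠ 0 := by linarith
    have h4 : 1 - (j : ℝ) / D = (D - j) / D := by field_simp
    rw [h4]
    field_simp
  refine (Finset.sum_le_sum h1).trans ?_
  rw [Finset.sum_add_distrib, ← Finset.mul_sum, ← Finset.mul_sum]
  have h5 := sum_inv_le D
  have h6 := sum_inv_le' D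
  nlinarith [mul_le_mul_of_nonneg_left h5 (by positivity : (0 : ℝ) ≤ D / 2),
    mul_le_mul_of_nonneg_left h6 (by positivity : (0 : ℝ) ≤ D / 2)]

lemma T_add_int (a : ℤ) (N : ℕ) (θ : ℝ) (k : ℤ) : T a N (θ + k) = T a N θ := by
  unfold T
  refine Finset.sum_congr rfl fun n _ => ?_
  rw [mul_add, ex_add, ← Int.cast_mul, ex_int, mul_one]

/-- the local factor -/
noncomputable def gl (p : ℕ) (A c : ZMod p) (κ : ZMod p) (x : ZMod p) : ℂ :=
  open Classical in
  (if x + κ + c = 0 then 0 else ec p (A * (x + κ + c)⁻¹)) *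
    (starRingEnd ℂ) (if x + c = 0 then 0 else ec p (A * (x + c)⁻¹))

lemma ec_eq (p : ℕ) [NeZero p] (x : ZMod p) : ec p x = ZMod.stdAddChar x := by
  unfold ec
  rw [ZMod.stdAddChar_apply, ZMod.toCircle_apply]
  congr 1
  push_cast
  ring

lemma norm_ec_le (p : ℕ) (x : ZMod p) : ‖ec p x‖ = 1 := by
  unfold ec
  have : (2 * Real.pi * Complex.I * (((x.val : ℝ) / (p : ℝ) : ℝ) : ℂ)) =
      ((2 * Real.pi * ((x.val : ℝ) / (p : ℝ)) : ℝ) : ℂ) * Complex.I := by
    push_cast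
    ring
  rw [this, Complex.norm_exp_ofReal_mul_I]

lemma norm_gl_le (p : ℕ) (A c κ x : ZMod p) : ‖gl p A c κ x‖ ≤ 1 := by
  unfold gl
  rw [norm_mul, RCLike.norm_conj]
  have h1 : ∀ y z : ZMod p, ‖(open Classical in if y = 0 then (0 : ℂ) else ec p z)‖ ≤ 1 := by
    intro y z
    split_ifs
    · simp
    · rw [norm_ec_le]
  exact mul_le_one₀ (h1 _ _) (norm_nonneg _) (h1 _ _)

lemma dft_bound {C : ℝ} (hC : 1 ≤ C)
    (hW : ∀ (p : ℕ) [Fact p.Prime] (A c B : ZMod p), A ≠ 0 → c ≠ 0 →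
      ‖∑ x : ZMod p, if x = 0 ∨ x + c = 0 then (0 : ℂ) else
        ZMod.stdAddChar (A * x⁻¹ - A * (x + c)⁻¹ + B * x)‖ ≤ C * Real.sqrt p)
    (p : ℕ) [Fact p.Prime] (A c κ t : ZMod p) :
    ‖ZMod.dft (gl p A c κ) t‖ ≤ C * Real.sqrt p *
      (open Classical in if A = 0 ∨ κ = 0 then Real.sqrt p else 1) := by
  classical
  rw [ZMod.dft_apply]
  have hp0 : (0 : ℝ) ≤ p := Nat.cast_nonneg p
  split_ifs with hdeg
  · rw [mul_assoc, Real.mul_self_sqrt hp0]
    refine (norm_sum_le _ _).trans ?_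
    have h1 : ∀ j ∈ (univ : Finset (ZMod p)), ‖ZMod.stdAddChar (-(j * t)) • gl p A c κ j‖ ≤ 1 := by
      intro j _
      rw [norm_smul, ← ec_eq, norm_ec_le, one_mul]
      exact norm_gl_le _ _ _ _ _
    refine (Finset.sum_le_sum h1).trans ?_
    rw [Finset.sum_const, Finset.card_univ, ZMod.card, nsmul_eq_mul, mul_one]
    nlinarith
  · rw [not_or] at hdeg
    obtain ⟨hA, hκ⟩ := hdeg
    rw [mul_one]
    have h1 := hW p (-A) κ (-t) (neg_ne_zero.2 hA) hκ
    have h2 : ∑ j : ZMod p, ZMod.stdAddChar (-(j * t)) • gl p A c κ j =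
        ZMod.stdAddChar (c * t) * ∑ x : ZMod p, if x = 0 ∨ x + κ = 0 then (0 : ℂ) else
          ZMod.stdAddChar (-A * x⁻¹ - -A * (x + κ)⁻¹ + -t * x) := by
      rw [← Equiv.sum_comp (Equiv.subRight c), Finset.mul_sum]
      refine Finset.sum_congr rfl fun x _ => ?_
      simp only [Equiv.subRight_apply]
      unfold gl
      have e1 : x - c + κ + c = x + κ := by ring
      have e2 : x - c + c = x := by ring
      rw [e1, e2]
      by_cases hx : x = 0
      · simp [hx]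
      · by_cases hxk : x + κ = 0
        · simp [hxk]
        · rw [if_neg hxk, if_neg hx, if_neg (by tauto), ec_eq, ec_eq, smul_eq_mul]
          have e3 : (starRingEnd ℂ) (ZMod.stdAddChar (A * x⁻¹)) = ZMod.stdAddChar (-(A * x⁻¹)) := by
            rw [AddChar.map_neg_eq_conj]
          rw [e3, ← AddChar.map_add_eq_mul, ← AddChar.map_add_eq_mul, ← AddChar.map_add_eq_mul]
          congr 1
          ring
    rw [h2, norm_mul, ← ec_eq, norm_ec_le, one_mul]
    exact h1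

/-- Fourier expansion of the local factor -/
lemma gl_expand (p : ℕ) [Fact p.Prime] (A c κ : ZMod p) (n : ℤ) :
    gl p A c κ (n : ZMod p) = ∑ t ∈ range p, ((p : ℂ)⁻¹ * ZMod.dft (gl p A c κ) (t : ZMod p)) *
      ex ((n : ℝ) * ((t : ℝ) / p)) := by
  have h1 : gl p A c κ = ZMod.dft.symm (ZMod.dft (gl p A c κ)) := (LinearEquiv.symm_apply_apply _ _).symm
  have hp := (Fact.out : p.Prime)
  conv_lhs => rw [h1]
  rw [ZMod.invDFT_apply, smul_eq_mul, Finset.mul_sum]
  refine Finset.sum_nbij' (fun j => j.val) (fun t => (t : ZMod p)) ?_ ?_ ?_ ?_ ?_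
  · intro j _
    rw [Finset.mem_range]
    exact ZMod.val_lt j
  · intro t _
    exact Finset.mem_univ _
  · intro j _
    exact ZMod.natCast_zmod_val j
  · intro t ht
    rw [Finset.mem_range] at ht
    exact ZMod.val_cast_of_lt ht
  · intro j _
    rw [ZMod.natCast_zmod_val, smul_eq_mul]
    have h2 : ZMod.stdAddChar (j * (n : ZMod p)) = ex ((n : ℝ) * ((j.val : ℝ) / p)) := by
      have h3 : j * (n : ZMod p) = (((j.val : ℤ) * n : ℤ) : ZMod p) := by
        push_cast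
        rw [ZMod.natCast_zmod_val]
      rw [h3, ZMod.stdAddChar_coe]
      unfold ex
      congr 1
      push_cast
      ring
    rw [h2]
    ring

lemma prod_sqrt (s : Finset ℕ) : ∏ p ∈ s, Real.sqrt (p : ℝ) = Real.sqrt ((∏ p ∈ s, p : ℕ) : ℝ) := by
  classical
  induction s using Finset.induction_on with
  | empty => simp
  | insert i s hi ih =>
    rw [Finset.prod_insert hi, Finset.prod_insert hi, ih, Nat.cast_mul,
      Real.sqrt_mul (Nat.cast_nonneg i)]

section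
variable (P : Finset ℕ)

/-- cofactor -/
def Ef (x : P) : ℕ := ∏ p ∈ P.erase x.1, p

/-- numerator of the frequency -/
def Jf (f : P → ℕ) : ℕ := ∑ x, f x * Ef P x

lemma mul_Ef (x : P) : x.1 * Ef P x = ∏ p ∈ P, p := by
  classical
  unfold Ef
  exact Finset.mul_prod_erase P (fun p => p) x.2

variable (hP : ∀ p ∈ P, p.Prime)
include hP

lemma theta_eq (f : P → ℕ) : ∑ x : P, (f x : ℝ) / (x.1 : ℝ) = (Jf P f : ℝ) / ((∏ p ∈ P, p : ℕ) : ℝ) := by
  have hD : ((∏ p ∈ P, p : ℕ) : ℝ) ≠ 0 := by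
    exact_mod_cast (Finset.prod_pos fun p hp => (hP p hp).pos).ne'
  unfold Jf
  rw [Nat.cast_sum, Finset.sum_div]
  refine Finset.sum_congr rfl fun x _ => ?_
  have hx : (x.1 : ℝ) ≠ 0 := by exact_mod_cast (hP x.1 x.2).ne_zero
  rw [div_eq_div_iff hx hD, ← mul_Ef P x]
  push_cast
  ring

lemma J_inj (f g : P → ℕ) (hf : ∀ x, f x < x.1) (hg : ∀ x, g x < x.1)
    (h : Jf P f % (∏ p ∈ P, p) = Jf P g % (∏ p ∈ P, p)) : f = g := by
  classical
  funext x
  have hmod : Jf P f ≡ Jf P g [MOD x.1] := by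
    have h1 : Jf P f ≡ Jf P g [MOD (∏ p ∈ P, p)] := h
    exact h1.of_dvd ⟨Ef P x, (mul_Ef P x).symm⟩
  have key : ∀ f : P → ℕ, Jf P f ≡ f x * Ef P x [MOD x.1] := by
    intro f
    unfold Jf
    rw [← Finset.add_sum_erase univ (fun x => f x * Ef P x) (Finset.mem_univ x)]
    have h2 : x.1 ∣ ∑ y ∈ univ.erase x, f y * Ef P y := by
      refine Finset.dvd_sum fun y hy => ?_
      have hne : y ≠ x := Finset.ne_of_mem_erase hy
      refine Dvd.dvd.mul_left ?_ _
      unfold Ef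
      refine Finset.dvd_prod_of_mem (fun p => p) (Finset.mem_erase.2 ⟨?_, x.2⟩)
      intro h3
      exact hne (Subtype.ext h3.symm)
    exact (Nat.modEq_zero_iff_dvd.2 h2).add_left (f x * Ef P x)
  have h4 : f x * Ef P x ≡ g x * Ef P x [MOD x.1] := (key f).symm.trans (hmod.trans (key g))
  have h5 : Nat.Coprime x.1 (Ef P x) := by
    unfold Ef
    refine Nat.Coprime.prod_right fun p hp => ?_
    have hp' := Finset.mem_erase.1 hp
    exact (Nat.coprime_primes (hP x.1 x.2) (hP p hp'.2)).2 (Ne.symm hp'.1)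
  have h6 : f x ≡ g x [MOD x.1] := Nat.ModEq.cancel_right_of_coprime h5 h4
  exact Nat.ModEq.eq_of_lt_of_lt h6 (hf x) (hg x)

lemma sum_T_pi (a : ℤ) (N : ℕ) :
    ∑ f ∈ Fintype.piFinset (fun x : P => range x.1), ‖T a N (∑ x : P, (f x : ℝ) / (x.1 : ℝ))‖ ≤
      N + ((∏ p ∈ P, p : ℕ) : ℝ) * (1 + Real.log ((∏ p ∈ P, p : ℕ) : ℝ)) := by
  classical
  set D := ∏ p ∈ P, p with hDdef
  have hD : 1 ≤ D := Finset.prod_pos fun p hp => (hP p hp).pos
  have hDR : (D : ℝ) ≠ 0 := by exact_mod_cast (by omega : D ≠ 0)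
  have h1 : ∀ f : P → ℕ, ‖T a N (∑ x : P, (f x : ℝ) / (x.1 : ℝ))‖ =
      ‖T a N (((Jf P f % D : ℕ) : ℝ) / D)‖ := by
    intro f
    rw [theta_eq P hP, ← hDdef]
    have h2 : (Jf P f : ℝ) / D = ((Jf P f % D : ℕ) : ℝ) / D + (((Jf P f / D : ℕ) : ℤ) : ℝ) := by
      have h3 := Nat.mod_add_div (Jf P f) D
      have h4 : (Jf P f : ℝ) = ((Jf P f % D : ℕ) : ℝ) + D * ((Jf P f / D : ℕ) : ℝ) := by
        exact_mod_cast h3.symm
      rw [Int.cast_natCast]
      conv_lhs => rw [h4]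
      field_simp
    rw [h2, T_add_int]
  rw [Finset.sum_congr rfl fun f _ => h1 f]
  have hinj : Set.InjOn (fun f : P → ℕ => Jf P f % D)
      (Fintype.piFinset (fun x : P => range x.1) : Set (P → ℕ)) := by
    intro f hf g hg h
    rw [Finset.mem_coe, Fintype.mem_piFinset] at hf hg
    exact J_inj P hP f g (fun x => Finset.mem_range.1 (hf x)) (fun x => Finset.mem_range.1 (hg x)) h
  rw [← Finset.sum_image (f := fun j : ℕ => ‖T a N ((j : ℝ) / D)‖) hinj]
  refine le_trans (Finset.sum_le_sum_of_subset_of_nonneg ?_ fun _ _ _ => norm_nonneg _) (sum_T a N D hD)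
  intro j hj
  rw [Finset.mem_image] at hj
  obtain ⟨f, _, rfl⟩ := hj
  exact Finset.mem_range.2 (Nat.mod_lt _ hD)

end

end CInc

open CInc

theorem cinc (hW : S_WEIL) : S_CINC := by
  classical
  obtain ⟨C0, hC0, hW⟩ := hW
  have hC1 : (1 : ℝ) ≤ max 1 C0 := le_max_left _ _
  refine ⟨max 1 C0, hC1, ?_⟩
  set C := max 1 C0 with hCdef
  have hW' : ∀ (p : ℕ) [Fact p.Prime] (A c B : ZMod p), A ≠ 0 → c ≠ 0 →
      ‖∑ x : ZMod p, if x = 0 ∨ x + c = 0 then (0 : ℂ) else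
        ZMod.stdAddChar (A * x⁻¹ - A * (x + c)⁻¹ + B * x)‖ ≤ C * Real.sqrt p := by
    intro p _ A c B hA hc
    exact (hW p A c B hA hc).trans (mul_le_mul_of_nonneg_right (le_max_right _ _) (Real.sqrt_nonneg _))
  intro P hP A c κ a N hN
  have hF : ∀ x : P, Fact (x.1).Prime := fun x => ⟨hP x.1 x.2⟩
  set co : P → ℕ → ℂ := fun x t =>
    ((x.1 : ℕ) : ℂ)⁻¹ * ZMod.dft (gl x.1 (A x.1) (c x.1) (κ : ZMod x.1)) (t : ZMod x.1) with hco
  -- the factorisation
  have hG : ∀ n : ℤ, PH P A c (n + κ) * (starRingEnd ℂ) (PH P A c n) =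
      ∑ f ∈ Fintype.piFinset (fun x : P => range x.1),
        (∏ x : P, co x (f x)) * ex ((n : ℝ) * ∑ x : P, (f x : ℝ) / (x.1 : ℝ)) := by
    intro n
    unfold PH
    rw [map_prod, ← Finset.prod_mul_distrib, ← Finset.prod_coe_sort]
    have h1 : ∀ x : P, lp x.1 (A x.1) (c x.1) (n + κ) * (starRingEnd ℂ) (lp x.1 (A x.1) (c x.1) n) =
        ∑ t ∈ range x.1, co x t * ex ((n : ℝ) * ((t : ℝ) / (x.1 : ℝ))) := by
      intro x
      rw [hco]
      simp only
      rw [← gl_expand x.1 (A x.1) (c x.1) (κ : ZMod x.1) n]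
      unfold lp gl
      push_cast
      rfl
    rw [Finset.prod_congr rfl fun x _ => h1 x, Finset.prod_univ_sum]
    refine Finset.sum_congr rfl fun f _ => ?_
    rw [Finset.prod_mul_distrib, Finset.mul_sum, ex_sum]
  rw [Finset.sum_congr rfl fun n _ => hG n, Finset.sum_comm]
  set D : ℕ := ∏ p ∈ P, p with hDdef
  set Dg : ℕ := ∏ p ∈ P.filter (fun p => A p = 0 ∨ (κ : ZMod p) = 0), p with hDg
  have hD : 1 ≤ D := Finset.prod_pos fun p hp => (hP p hp).pos
  have hDR : (0 : ℝ) < D := by exact_mod_cast hD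
  have h2 : ∀ f ∈ Fintype.piFinset (fun x : P => range x.1),
      ‖∑ n ∈ Ico a (a + N), (∏ x : P, co x (f x)) * ex ((n : ℝ) * ∑ x : P, (f x : ℝ) / (x.1 : ℝ))‖ ≤
        (C ^ P.card * Real.sqrt D * Real.sqrt Dg / D) * ‖T a N (∑ x : P, (f x : ℝ) / (x.1 : ℝ))‖ := by
    intro f _
    rw [← Finset.mul_sum, norm_mul]
    refine mul_le_mul_of_nonneg_right ?_ (norm_nonneg _)
    rw [norm_prod]
    have h3 : ∀ x ∈ (univ : Finset P), ‖co x (f x)‖ ≤
        (x.1 : ℝ)⁻¹ * (C * Real.sqrt x.1 * (if A x.1 = 0 ∨ (κ : ZMod x.1) = 0 then Real.sqrt x.1 else 1)) := by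
      intro x _
      rw [hco]
      simp only
      rw [norm_mul, norm_inv, Complex.norm_natCast]
      refine mul_le_mul_of_nonneg_left ?_ (by positivity)
      have := dft_bound hC1 hW' x.1 (A x.1) (c x.1) (κ : ZMod x.1) (f x : ZMod x.1)
      exact this
    refine (Finset.prod_le_prod (fun _ _ => norm_nonneg _) h3).trans (le_of_eq ?_)
    rw [Finset.prod_mul_distrib, Finset.prod_mul_distrib, Finset.prod_mul_distrib, Finset.prod_const,
      Finset.card_univ, Fintype.card_coe,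
      Finset.prod_coe_sort P (fun p => ((p : ℕ) : ℝ)⁻¹), Finset.prod_coe_sort P (fun p => Real.sqrt (p : ℕ)),
      Finset.prod_coe_sort P (fun p => if A p = 0 ∨ (κ : ZMod p) = 0 then Real.sqrt (p : ℕ) else 1),
      prod_sqrt, ← Finset.prod_filter, prod_sqrt, Finset.prod_inv_distrib, ← Nat.cast_prod, ← hDdef, ← hDg]
    field_simp
  refine (norm_sum_le _ _).trans ((Finset.sum_le_sum h2).trans ?_)
  rw [← Finset.mul_sum]
  have h4 := sum_T_pi P hP a N
  rw [← hDdef] at h4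
  refine (mul_le_mul_of_nonneg_left h4 (by positivity)).trans (le_of_eq ?_)
  field_simp
  ring

end Pool.Agent.Y826.Z
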