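import Mathlib
import Pool.Agent.Y826.Z.Cinc
import Pool.Agent.Y826.Z.BLS
import Pool.Agent.Y807.WB.Main
import Pool.Agent.Y202.Z.Vdc
import Pool.Agent.Y202.Z.ZD
import Pool.Agent.Y870.Z.Ph
import Pool.Agent.Y535.ZP.OA
import Pool.Agent.Y814.Z.OC
import Pool.Agent.Y474.TRIV.G
import Pool.Agent.Y61.Z.TII
import Pool.Agent.Y895.Z.TI
import Pool.Agent.Y674.ZB.BX
import Pool.Agent.Y818.YZ.Lam
import Pool.Agent.Y950.Z.ZZ

/-! Project Y826/Z: primes in residue classes to factorable moduli beyond the level `1/2`,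
unconditionally: all the parts together. -/

namespace Pool.Agent.Y826.Z

theorem s_cinc : S_CINC := cinc Pool.Agent.Y807.WB.weil

theorem s_vdc : S_VDC := Pool.Agent.Y202.Z.vdc s_cinc

theorem s_oa : S_OA := Pool.Agent.Y535.ZP.oa Pool.Agent.Y870.Z.phase s_vdc

theorem s_off : S_OFF := Pool.Agent.Y814.Z.off s_oa

theorem s_tii : S_TII := Pool.Agent.Y61.Z.tii s_off Pool.Agent.Y474.TRIV.triv bls

theorem s_bx : S_BX := Pool.Agent.Y674.ZB.bx s_tii

theorem s_lam : S_LAM := Pool.Agent.Y818.YZ.lam s_bx ti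

theorem s_z : S_Z := Pool.Agent.Y202.Z.zbox s_lam

/-- the equidistribution theorem -/
theorem s_zz : S_ZZ := Pool.Agent.Y950.Z.zz s_z

end Pool.Agent.Y826.Z
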