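import Mathlib
import Pool.Agent.Y826.Z.Defs4

/-! Project Y826/Z: the second version of the grouping lemma, total radius `2.0425`. -/

open Finset Filter

namespace Pool.Agent.Y826.Z

open Pool.Agent.H95R2.BG Pool.Agent.H378R2

/-- good cells: no large coordinate, and enough small coordinates on all scales -/
structure Gd2 {K0 : ℕ} (N1 : ℕ) (c : Fin K0 → ℕ) : Prop where
  cap : ∀ j, ((c j : ℝ) + 1) / N1 ≤ 0.665
  rd : (rad c : ℝ) / N1 ≤ 1.1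
  sw : 0.0035 ≤ Sm N1 0.004 c
  s0 : 0.033 ≤ Sm N1 0.01 c
  s1 : 0.0432 ≤ Sm N1 0.015 c
  s2 : 0.0835 ≤ Sm N1 0.0354 c
  s3 : 0.1293 ≤ Sm N1 0.0897 c
  s4 : 0.1603 ≤ Sm N1 0.1355 c
  s5 : 0.1912 ≤ Sm N1 0.1666 c
  s6 : 0.2255 ≤ Sm N1 0.3315 c

/-- two good cells can be evaluated up to the total radius `2.0425` -/
def S_COMB2 : Prop := ∀ (K0 N1 : ℕ), 0 < N1 → ∀ c c' : Fin K0 → ℕ, Gd2 N1 c → Gd2 N1 c' →
  ((rad c + rad c' : ℕ) : ℝ) / N1 ≤ 2.0425 → Ev N1 c c'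

end Pool.Agent.Y826.Z
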