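import Mathlib
import Pool.Agent.Y826.Z.Defs4

/-! Project Y826/Z, task LAY (helper125): the layered choice of the multipliers with an effective
radius. -/

open Finset Filter

namespace Pool.Agent.Y826.Z

open Pool.Agent.H95R2.BG Pool.Agent.H378R2

namespace LayAux

/-- a finite positive semidefinite identity -/
theorem psd {ι : Type} {S : Finset ι} {r : ℕ} (μ : Fin r → ℝ) (hμ : ∀ l, 0 ≤ μ l)
    (α b : Fin r → ι → ℝ) (b0 : ι → ℝ) (Y : ι → ℝ) :
    ∑ s ∈ S, ∑ s' ∈ S, (1 + ∑ l, μ l * (α l s * α l s') - b0 s * b0 s' - ∑ l, μ l * (b l s * b l s')) *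
        (Y s * Y s') ≤
      (∑ s ∈ S, Y s) ^ 2 + ∑ l, μ l * (∑ s ∈ S, α l s * Y s) ^ 2 := by
  have key : ∀ g : ι → ℝ, ∑ s ∈ S, ∑ s' ∈ S, (g s * g s') * (Y s * Y s') = (∑ s ∈ S, g s * Y s) ^ 2 := by
    intro g
    rw [pow_two, Finset.sum_mul_sum]
    refine Finset.sum_congr rfl fun s _ => Finset.sum_congr rfl fun s' _ => ?_
    ring
  have keyl : ∀ g : Fin r → ι → ℝ, ∑ s ∈ S, ∑ s' ∈ S, (∑ l, μ l * (g l s * g l s')) * (Y s * Y s') =
      ∑ l, μ l * (∑ s ∈ S, g l s * Y s) ^ 2 := by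
    intro g
    have : ∀ l, μ l * (∑ s ∈ S, g l s * Y s) ^ 2 =
        ∑ s ∈ S, ∑ s' ∈ S, μ l * (g l s * g l s') * (Y s * Y s') := by
      intro l
      rw [← key (g l), Finset.mul_sum]
      refine Finset.sum_congr rfl fun s _ => ?_
      rw [Finset.mul_sum]
      refine Finset.sum_congr rfl fun s' _ => ?_
      ring
    simp only [this]
    symm
    rw [Finset.sum_comm]
    refine Finset.sum_congr rfl fun s _ => ?_
    rw [Finset.sum_comm]
    refine Finset.sum_congr rfl fun s' _ => ?_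
    rw [Finset.sum_mul]
  have h1 : ∑ s ∈ S, ∑ s' ∈ S, (1 + ∑ l, μ l * (α l s * α l s') - b0 s * b0 s' -
        ∑ l, μ l * (b l s * b l s')) * (Y s * Y s') =
      ∑ s ∈ S, ∑ s' ∈ S, ((fun _ : ι => (1 : ℝ)) s * (fun _ : ι => (1 : ℝ)) s') * (Y s * Y s') +
      ∑ s ∈ S, ∑ s' ∈ S, (∑ l, μ l * (α l s * α l s')) * (Y s * Y s') -
      ∑ s ∈ S, ∑ s' ∈ S, (b0 s * b0 s') * (Y s * Y s') -
      ∑ s ∈ S, ∑ s' ∈ S, (∑ l, μ l * (b l s * b l s')) * (Y s * Y s') := by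
    rw [← Finset.sum_add_distrib, ← Finset.sum_sub_distrib, ← Finset.sum_sub_distrib]
    refine Finset.sum_congr rfl fun s _ => ?_
    rw [← Finset.sum_add_distrib, ← Finset.sum_sub_distrib, ← Finset.sum_sub_distrib]
    refine Finset.sum_congr rfl fun s' _ => ?_
    ring
  rw [h1, key, keyl, key, keyl]
  have h2 : 0 ≤ (∑ s ∈ S, b0 s * Y s) ^ 2 := sq_nonneg _
  have h3 : 0 ≤ ∑ l, μ l * (∑ s ∈ S, b l s * Y s) ^ 2 :=
    Finset.sum_nonneg fun l _ => mul_nonneg (hμ l) (sq_nonneg _)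
  have h4 : ∑ s ∈ S, (1 : ℝ) * Y s = ∑ s ∈ S, Y s := by simp
  rw [h4]
  linarith

variable {ι : Type} {r : ℕ} (L Dm : ℕ) (μ : Fin r → ℝ) (T : Fin r → ℕ) (ρ : ι → ℕ) (σ : ι → ℝ)

/-- total mass of the thresholds `≤ L - ρ c` -/
noncomputable def Mf (c : ι) : ℝ := ∑ l, if T l ≤ L - ρ c then μ l else 0

noncomputable def gam (c : ι) : ℝ := 1 / (1 + 4 / (2 + σ c) * Mf L μ T ρ c)

/-- the reflected multiplier -/
noncomputable def aa (c : ι) : ℝ := gam L μ T ρ σ c * ((2 - σ c) / (2 + σ c))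

noncomputable def al (l : Fin r) (c : ι) : ℝ :=
  if L < ρ c then (if T l < ρ c - L then 1 else 0)
  else if L < ρ c + Dm then (if T l ≤ L - ρ c then -(aa L μ T ρ σ c) else 0) else 0

noncomputable def b0 (c : ι) : ℝ :=
  if L < ρ c then 1 else if L < ρ c + Dm then gam L μ T ρ σ c else 0

noncomputable def bl (l : Fin r) (c : ι) : ℝ :=
  if L < ρ c then (if T l < ρ c - L then 1 else 0)
  else if L < ρ c + Dm then (if T l ≤ L - ρ c then gam L μ T ρ σ c else 0) else 0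

noncomputable def kk (c c' : ι) : ℝ :=
  1 + ∑ l, μ l * (al L Dm μ T ρ σ l c * al L Dm μ T ρ σ l c') -
    b0 L Dm μ T ρ σ c * b0 L Dm μ T ρ σ c' -
    ∑ l, μ l * (bl L Dm μ T ρ σ l c * bl L Dm μ T ρ σ l c')

theorem kk_symm (c c' : ι) : kk L Dm μ T ρ σ c c' = kk L Dm μ T ρ σ c' c := by
  unfold kk
  have h1 : ∑ l, μ l * (al L Dm μ T ρ σ l c * al L Dm μ T ρ σ l c') =
      ∑ l, μ l * (al L Dm μ T ρ σ l c' * al L Dm μ T ρ σ l c) :=
    Finset.sum_congr rfl fun l _ => by ring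
  have h2 : ∑ l, μ l * (bl L Dm μ T ρ σ l c * bl L Dm μ T ρ σ l c') =
      ∑ l, μ l * (bl L Dm μ T ρ σ l c' * bl L Dm μ T ρ σ l c) :=
    Finset.sum_congr rfl fun l _ => by ring
  rw [h1, h2]
  ring

theorem Mf_nonneg (hμ : ∀ l, 0 ≤ μ l) (c : ι) : 0 ≤ Mf L μ T ρ c :=
  Finset.sum_nonneg fun l _ => by split_ifs; exacts [hμ l, le_rfl]

theorem gam_mul (hμ : ∀ l, 0 ≤ μ l) (c : ι) (hσ : 0 ≤ σ c) :
    gam L μ T ρ σ c * (1 + 4 / (2 + σ c) * Mf L μ T ρ c) = 1 := by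
  have := Mf_nonneg L μ T ρ hμ c
  have h2 : 0 < 1 + 4 / (2 + σ c) * Mf L μ T ρ c := by positivity
  unfold gam
  rw [one_div, inv_mul_cancel₀ h2.ne']

/-- both above `L` -/
theorem kk_BB (c c' : ι) (h : L < ρ c) (h' : L < ρ c') : kk L Dm μ T ρ σ c c' = 0 := by
  unfold kk
  have h1 : ∑ l, μ l * (al L Dm μ T ρ σ l c * al L Dm μ T ρ σ l c') =
      ∑ l, μ l * (bl L Dm μ T ρ σ l c * bl L Dm μ T ρ σ l c') :=
    Finset.sum_congr rfl fun l _ => by simp [al, bl, h, h']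
  rw [h1]
  simp [b0, h, h']

/-- one above `L` -/
theorem kk_BA (hμ : ∀ l, 0 ≤ μ l) (c c' : ι) (hσ : 0 ≤ σ c') (h : L < ρ c) (h' : ρ c' ≤ L)
    (hs : ρ c ≤ L + Dm) (hss : 2 * L < ρ c + ρ c') : kk L Dm μ T ρ σ c c' = 0 := by
  have hA : L < ρ c' + Dm := by omega
  have hnot : ¬ L < ρ c' := by omega
  have e1 : ∑ l, μ l * (al L Dm μ T ρ σ l c * al L Dm μ T ρ σ l c') =
      -(aa L μ T ρ σ c') * Mf L μ T ρ c' := by
    unfold Mf
    rw [Finset.mul_sum]
    refine Finset.sum_congr rfl fun l _ => ?_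
    by_cases hT : T l ≤ L - ρ c'
    · have hT2 : T l < ρ c - L := by omega
      simp only [al, if_pos h, if_pos hT2, if_neg hnot, if_pos hA, if_pos hT]
      ring
    · simp only [al, if_pos h, if_neg hnot, if_pos hA, if_neg hT]
      ring
  have e2 : ∑ l, μ l * (bl L Dm μ T ρ σ l c * bl L Dm μ T ρ σ l c') =
      gam L μ T ρ σ c' * Mf L μ T ρ c' := by
    unfold Mf
    rw [Finset.mul_sum]
    refine Finset.sum_congr rfl fun l _ => ?_
    by_cases hT : T l ≤ L - ρ c'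
    · have hT2 : T l < ρ c - L := by omega
      simp only [bl, if_pos h, if_pos hT2, if_neg hnot, if_pos hA, if_pos hT]
      ring
    · simp only [bl, if_pos h, if_neg hnot, if_pos hA, if_neg hT]
      ring
  have e3 : b0 L Dm μ T ρ σ c = 1 := by simp [b0, h]
  have e4 : b0 L Dm μ T ρ σ c' = gam L μ T ρ σ c' := by simp only [b0, if_neg hnot, if_pos hA]
  unfold kk
  rw [e1, e2, e3, e4]
  have h5 := gam_mul L μ T ρ σ hμ c' hσ
  have h6 : (2 - σ c') / (2 + σ c') = 4 / (2 + σ c') - 1 := by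
    have : (2 + σ c') ≠ 0 := by linarith
    field_simp
    ring
  unfold aa
  rw [h6]
  linear_combination -h5

theorem kk_zero (hμ : ∀ l, 0 ≤ μ l) (c c' : ι) (hσ : 0 ≤ σ c) (hσ' : 0 ≤ σ c')
    (hs : ρ c ≤ L + Dm) (hs' : ρ c' ≤ L + Dm)
    (hss : 2 * L < ρ c + ρ c') : kk L Dm μ T ρ σ c c' = 0 := by
  rcases lt_or_ge L (ρ c) with h | h
  · rcases lt_or_ge L (ρ c') with h' | h'
    · exact kk_BB L Dm μ T ρ σ c c' h h'
    · exact kk_BA L Dm μ T ρ σ hμ c c' hσ' h h' hs hss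
  · rw [kk_symm]
    exact kk_BA L Dm μ T ρ σ hμ c' c hσ (by omega) h hs' (by omega)

theorem diag (hμ : ∀ l, 0 ≤ μ l) (w : ℝ) (c : ι) (hσ : 0 ≤ σ c) (hσ2 : σ c < 2)
    (hW0 : ρ c + Dm ≤ L → w ≤ 1)
    (hWA : L < ρ c + Dm → ρ c ≤ L →
      w ≤ 1 - 1 / (1 + 4 / (2 + σ c) * ∑ l, if T l ≤ L - ρ c then μ l else 0))
    (hWB : L < ρ c → w ≤ - (4 * (∑ l, if T l < ρ c - L then μ l else 0) / (2 - σ c))) :
    w ≤ kk L Dm μ T ρ σ c c - 4 * ∑ l, μ l * (al L Dm μ T ρ σ l c ^ 2 / (2 - σ c)) := by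
  rcases lt_or_ge L (ρ c) with h | h
  · -- B
    rw [kk_BB L Dm μ T ρ σ c c h h]
    refine (hWB h).trans (le_of_eq ?_)
    have e1 : ∑ l, μ l * (al L Dm μ T ρ σ l c ^ 2 / (2 - σ c)) =
        (∑ l, if T l < ρ c - L then μ l else 0) / (2 - σ c) := by
      rw [Finset.sum_div]
      refine Finset.sum_congr rfl fun l _ => ?_
      by_cases hT : T l < ρ c - L
      · simp only [al, if_pos h, if_pos hT]
        ring
      · simp only [al, if_pos h, if_neg hT]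
        ring
    rw [e1]
    ring
  · rcases lt_or_ge L (ρ c + Dm) with hA | hX
    · -- A
      have hnot : ¬ L < ρ c := by omega
      have hM0 := Mf_nonneg L μ T ρ hμ c
      have hgm := gam_mul L μ T ρ σ hμ c hσ
      have e1 : ∑ l, μ l * (al L Dm μ T ρ σ l c * al L Dm μ T ρ σ l c) =
          (aa L μ T ρ σ c) ^ 2 * Mf L μ T ρ c := by
        unfold Mf
        rw [Finset.mul_sum]
        refine Finset.sum_congr rfl fun l _ => ?_
        by_cases hT : T l ≤ L - ρ c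
        · simp only [al, if_neg hnot, if_pos hA, if_pos hT]
          ring
        · simp only [al, if_neg hnot, if_pos hA, if_neg hT]
          ring
      have e2 : ∑ l, μ l * (bl L Dm μ T ρ σ l c * bl L Dm μ T ρ σ l c) =
          (gam L μ T ρ σ c) ^ 2 * Mf L μ T ρ c := by
        unfold Mf
        rw [Finset.mul_sum]
        refine Finset.sum_congr rfl fun l _ => ?_
        by_cases hT : T l ≤ L - ρ c
        · simp only [bl, if_neg hnot, if_pos hA, if_pos hT]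
          ring
        · simp only [bl, if_neg hnot, if_pos hA, if_neg hT]
          ring
      have e4 : b0 L Dm μ T ρ σ c = gam L μ T ρ σ c := by simp only [b0, if_neg hnot, if_pos hA]
      have e5 : ∑ l, μ l * (al L Dm μ T ρ σ l c ^ 2 / (2 - σ c)) =
          (aa L μ T ρ σ c) ^ 2 * Mf L μ T ρ c / (2 - σ c) := by
        rw [← e1, Finset.sum_div]
        refine Finset.sum_congr rfl fun l _ => ?_
        ring
      have hW' : w ≤ 1 - gam L μ T ρ σ c := hWA hA h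
      have hk : kk L Dm μ T ρ σ c c = 1 + (aa L μ T ρ σ c) ^ 2 * Mf L μ T ρ c -
          gam L μ T ρ σ c * gam L μ T ρ σ c - (gam L μ T ρ σ c) ^ 2 * Mf L μ T ρ c := by
        unfold kk
        rw [e1, e2, e4]
      rw [hk, e5]
      refine hW'.trans (le_of_eq ?_)
      have h6 : gam L μ T ρ σ c = gam L μ T ρ σ c ^ 2 * (1 + 4 / (2 + σ c) * Mf L μ T ρ c) := by
        rw [pow_two, mul_assoc, hgm, mul_one]
      have h2p : (2 + σ c) ≠ 0 := by linarith
      have h2m : (2 - σ c) ≠ 0 := by linarith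
      have h7 : (aa L μ T ρ σ c) ^ 2 * Mf L μ T ρ c -
          4 * ((aa L μ T ρ σ c) ^ 2 * Mf L μ T ρ c / (2 - σ c)) =
          gam L μ T ρ σ c ^ 2 * Mf L μ T ρ c * (1 - 4 / (2 + σ c)) := by
        unfold aa
        field_simp
        ring
      linear_combination -h6 - h7
    · -- X
      have hnot : ¬ L < ρ c := by omega
      have hnA : ¬ L < ρ c + Dm := by omega
      have e1 : ∀ l, al L Dm μ T ρ σ l c = 0 := fun l => by simp only [al, if_neg hnot, if_neg hnA]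
      have e2 : ∀ l, bl L Dm μ T ρ σ l c = 0 := fun l => by simp only [bl, if_neg hnot, if_neg hnA]
      have e3 : b0 L Dm μ T ρ σ c = 0 := by simp only [b0, if_neg hnot, if_neg hnA]
      have hk : kk L Dm μ T ρ σ c c = 1 := by
        unfold kk
        rw [e3]
        simp [e1, e2]
      rw [hk]
      have h7 : ∑ l, μ l * (al L Dm μ T ρ σ l c ^ 2 / (2 - σ c)) = 0 := by
        simp [e1]
      rw [h7]
      simpa using hW0 hX

end LayAux

open LayAux in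
/-- the layered choice of the multipliers -/
theorem lay (hC : S_CRIT) : S_LAY := by
  intro K0 N1 M R L Dm hN1 hM hR hDm hL F hF A hA hUU hAR ρ hρ hEv r μ hμ T W hW0 hWA hWB hcrit h hadm Q b hQ
    hb ε hε
  have hN1r : (0 : ℝ) < N1 := by exact_mod_cast hN1
  have hσ0 : ∀ c : Fin K0 → ℕ, 0 ≤ (rad c : ℝ) / N1 := fun c => by positivity
  refine hC hN1 hM hR F hF A hA hUU r μ hμ
    (al L Dm μ T ρ (fun c : Fin K0 → ℕ => (rad c : ℝ) / N1))
    (kk L Dm μ T ρ (fun c : Fin K0 → ℕ => (rad c : ℝ) / N1)) ?_ ?_ ?_ h hadm Q b hQ hb ε hε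
  · intro Y
    exact psd μ hμ _ (bl L Dm μ T ρ (fun c : Fin K0 → ℕ => (rad c : ℝ) / N1)) _ Y
  · intro c hc c' hc' hne
    refine hEv c hc c' hc' ?_
    by_contra hcon
    exact hne (kk_zero L Dm μ T ρ _ hμ c c' (hσ0 c) (hσ0 c') (hρ c hc) (hρ c' hc') (by omega))
  · refine hcrit.trans_le ?_
    refine Finset.sum_le_sum fun i _ => Finset.sum_le_sum fun c hc => ?_
    refine mul_le_mul_of_nonneg_right ?_ (sq_nonneg _)
    refine diag L Dm μ T ρ (fun c : Fin K0 → ℕ => (rad c : ℝ) / N1) hμ (W c) c (hσ0 c) ?_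
      (hW0 c hc) (hWA c hc) (hWB c hc)
    show (rad c : ℝ) / N1 < 2
    rw [div_lt_iff₀ hN1r]
    have h1 := hAR c hc
    have h2 : rad c < 2 * N1 := by omega
    exact_mod_cast h2

end Pool.Agent.Y826.Z
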