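import Mathlib
import Pool.Agent.Y826.Z.Defs4
import Pool.Agent.H95R2.BG.S2
import Pool.Agent.H95R2.BG.X1

/-! Project Y826/Z, task P2 (helper837): the error terms of a pair of tuples, with the two factors
`d_j` and `e_j / (d_j, e_j)` of each modulus kept apart. -/

open Finset Filter

namespace Pool.Agent.Y826.Z

open Pool.Agent.H95R2.BG Pool.Agent.H378R2

namespace P2

/-- the tuple of the two factors of the lcm's -/
def tq {J : ℕ} (d e : Fin J → ℕ) : Fin (J + J) → ℕ :=
  Fin.append d (fun j => e j / Nat.gcd (d j) (e j))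

theorem mul_div_gcd (a b : ℕ) : a * (b / Nat.gcd a b) = Nat.lcm a b := by
  rw [Nat.lcm, Nat.mul_div_assoc a (Nat.gcd_dvd_right a b)]

theorem Pr_tq {J : ℕ} (d e : Fin J → ℕ) : Pr (tq d e) = ∏ j, Nat.lcm (d j) (e j) := by
  unfold Pr tq
  rw [Fin.prod_univ_add]
  simp only [Fin.append_left, Fin.append_right]
  rw [← Finset.prod_mul_distrib]
  exact Finset.prod_congr rfl fun j _ => mul_div_gcd _ _

theorem lcm_dvd_iff' {a b : ℕ} (h : Squarefree (Nat.lcm a b)) (x : ℤ) :
    ((Nat.lcm a b : ℕ) : ℤ) ∣ x ↔ (a : ℤ) ∣ x ∧ ((b / Nat.gcd a b : ℕ) : ℤ) ∣ x := by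
  have h1 := mul_div_gcd a b
  rw [← h1] at h ⊢
  have hc : a.Coprime (b / Nat.gcd a b) := Nat.coprime_of_squarefree_mul h
  rw [Nat.cast_mul]
  constructor
  · intro hx
    exact ⟨(Dvd.intro _ rfl).trans hx, (Dvd.intro_left _ rfl).trans hx⟩
  · rintro ⟨h2, h3⟩
    exact IsCoprime.mul_dvd (Nat.isCoprime_iff_coprime.2 hc) h2 h3

/-- the divisibility conditions of a pair, in terms of the tuple of the factors -/
theorem Cd_tq {J : ℕ} (s : Fin J → ℤ) (d e : Fin J → ℕ) (h : ∀ j, Squarefree (Nat.lcm (d j) (e j)))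
    (n : ℕ) : Cd (Fin.append s s) (tq d e) n ↔ DC (fun j => (n : ℤ) + s j) d e := by
  unfold Cd DC tq
  constructor
  · intro hh j
    have h1 := hh (Fin.castAdd J j)
    have h2 := hh (Fin.natAdd J j)
    simp only [Fin.append_left] at h1
    simp only [Fin.append_right] at h2
    exact (lcm_dvd_iff' (h j) _).2 ⟨h1, h2⟩
  · intro hh j
    refine Fin.addCases (fun j => ?_) (fun j => ?_) j
    · simp only [Fin.append_left]
      exact ((lcm_dvd_iff' (h j) _).1 (hh j)).1
    · simp only [Fin.append_right]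
      exact ((lcm_dvd_iff' (h j) _).1 (hh j)).2

/-- grouping the pairs of tuples by the tuple of the factors -/
theorem fiberT {J : ℕ} (S T : Finset (Fin J → ℕ)) (Qs : Finset (Fin (J + J) → ℕ))
    (P : (Fin J → ℕ) → (Fin J → ℕ) → Prop)
    (f : (Fin (J + J) → ℕ) → ℝ) (hf : ∀ q, 0 ≤ f q) (hQ : ∀ q ∈ Qs, Pr q ≠ 0)
    (hmap : ∀ d ∈ S, ∀ e ∈ T, P d e → tq d e ∈ Qs)
    (U : (Fin J → ℕ) → (Fin J → ℕ) → ℝ)
    (hU : ∀ d ∈ S, ∀ e ∈ T, P d e → U d e ≤ f (tq d e))
    (hU' : ∀ d ∈ S, ∀ e ∈ T, ¬ P d e → U d e ≤ 0) :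
    ∑ d ∈ S, ∑ e ∈ T, U d e ≤ ∑ q ∈ Qs, tau (Pr q) ^ (2 * J) * f q := by
  classical
  have h1 : ∑ d ∈ S, ∑ e ∈ T, U d e ≤ ∑ x ∈ (S ×ˢ T).filter (fun x => P x.1 x.2),
      f (tq x.1 x.2) := by
    rw [← Finset.sum_product', Finset.sum_filter]
    refine Finset.sum_le_sum fun x hx => ?_
    rw [Finset.mem_product] at hx
    split_ifs with h
    · exact hU _ hx.1 _ hx.2 h
    · exact hU' _ hx.1 _ hx.2 h
  refine h1.trans ?_
  rw [← Finset.sum_fiberwise_of_maps_to (s := (S ×ˢ T).filter (fun x => P x.1 x.2)) (t := Qs)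
    (g := fun x => tq x.1 x.2)
    (by
      intro x hx
      rw [Finset.mem_filter, Finset.mem_product] at hx
      exact hmap _ hx.1.1 _ hx.1.2 hx.2)]
  refine Finset.sum_le_sum fun q hq => ?_
  have h2 : ∀ x ∈ ((S ×ˢ T).filter (fun x => P x.1 x.2)).filter
      (fun x => tq x.1 x.2 = q), f (tq x.1 x.2) = f q := by
    intro x hx
    rw [(Finset.mem_filter.1 hx).2]
  rw [Finset.sum_congr rfl h2, Finset.sum_const, nsmul_eq_mul]
  apply mul_le_mul_of_nonneg_right _ (hf q)
  have hsub : ((S ×ˢ T).filter (fun x => P x.1 x.2)).filter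
      (fun x => tq x.1 x.2 = q) ⊆
      (Fintype.piFinset (fun _ : Fin J => (Pr q).divisors)) ×ˢ
        (Fintype.piFinset (fun _ : Fin J => (Pr q).divisors)) := by
    intro x hx
    have hx2 := (Finset.mem_filter.1 hx).2
    have hx3 : Pr q = ∏ j, Nat.lcm (x.1 j) (x.2 j) := by rw [← hx2, Pr_tq]
    rw [Finset.mem_product, Fintype.mem_piFinset, Fintype.mem_piFinset]
    constructor
    · intro j
      rw [Nat.mem_divisors]
      refine ⟨?_, hQ q hq⟩
      rw [hx3]
      exact (Nat.dvd_lcm_left _ _).trans (Finset.dvd_prod_of_mem (fun j => Nat.lcm (x.1 j) (x.2 j)) (Finset.mem_univ j))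
    · intro j
      rw [Nat.mem_divisors]
      refine ⟨?_, hQ q hq⟩
      rw [hx3]
      exact (Nat.dvd_lcm_right _ _).trans (Finset.dvd_prod_of_mem (fun j => Nat.lcm (x.1 j) (x.2 j)) (Finset.mem_univ j))
  have h3 := Finset.card_le_card hsub
  rw [Finset.card_product, Fintype.card_piFinset, Finset.prod_const, Finset.card_univ, Fintype.card_fin] at h3
  unfold tau
  calc _ ≤ (((Pr q).divisors.card ^ J * (Pr q).divisors.card ^ J : ℕ) : ℝ) := by exact_mod_cast h3
    _ = _ := by push_cast; rw [two_mul, pow_add]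

/-- the sum over the primes, up to the discrepancies -/
theorem sum2T {J : ℕ} (X : ℝ) (hX : 0 < X) (W b : ℕ) (hW : Squarefree W) (F G : Fin J → ℝ → ℝ)
    (θ L : ℝ) (hLθ : L = θ * Real.log X) (hL : 0 < L) (cF cG : Fin J → ℝ)
    (hF : ∀ j x, |F j x| ≤ 1) (hG : ∀ j x, |G j x| ≤ 1)
    (hF0 : ∀ j x, cF j < x → F j x = 0) (hG0 : ∀ j x, cG j < x → G j x = 0)
    (E : Fin J → Finset ℕ) (R : ℕ) (s : Fin J → ℤ)
    (hEW : ∀ j, ∀ p : ℕ, p.Prime → p ∉ E j → ¬ p ∣ W)
    (hres : ∀ i j, i ≠ j → ∀ p : ℕ, p.Prime → p ∉ E i → p ∉ E j → ∀ n : ℕ,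
      ¬ ((p : ℤ) ∣ n + s i ∧ (p : ℤ) ∣ n + s j))
    (bq : (Fin (J + J) → ℕ) → ℕ) (hbq : Cls (Fin.append s s) W b bq) :
    |∑ n ∈ Icc 1 ⌊3 * X⌋₊, (if n ≡ b [MOD W] then Phi (n / X) * ArithmeticFunction.vonMangoldt n else 0) *
        ∏ j, (VVm (E j) R L (F j) (n + s j) * VVm (E j) R L (G j) (n + s j)) -
      (LPhi X * (1 / W.totient)) * sieveSum J F G L E (fun p _ => 1 / ((p : ℝ) - 1)) R| ≤
    ∑ q ∈ (Fintype.piFinset (fun j => Icc 1 ⌊X ^ (θ * (Fin.append cF cG : Fin (J + J) → ℝ) j)⌋₊)).filter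
      (fun q => Squarefree (W * Pr q)), tau (Pr q) ^ (2 * J) * |EPhi X (W * Pr q) (bq q)| := by
  classical
  refine (expand_le E R L F G ⌊3 * X⌋₊ (fun n => if n ≡ b [MOD W] then Phi (n / X) * ArithmeticFunction.vonMangoldt n else 0)
    (fun n j => n + s j) (LPhi X * (1 / W.totient)) (fun p _ => 1 / ((p : ℝ) - 1))).trans ?_
  refine (support_bound E R L 1 hL zero_le_one F G cF cG hF hG hF0 hG0 _ (fun _ _ => abs_nonneg _)).trans ?_
  rw [one_pow, one_mul]
  refine fiberT (supp E R L cF) (supp E R L cG) _ PC (fun q => |EPhi X (W * Pr q) (bq q)|)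
    (fun _ => abs_nonneg _) ?_ ?_ _ ?_ ?_
  · intro q hq hq0
    have h1 := (Finset.mem_filter.1 hq).2
    rw [hq0, mul_zero] at h1
    exact not_squarefree_zero h1
  · intro d hd e he hPC
    rw [mem_supp] at hd he
    have hd0 : ∀ j, d j ≠ 0 := fun j => by have := (mem_adm.1 (hd j).1).1.1; omega
    have he0 : ∀ j, e j ≠ 0 := fun j => by have := (mem_adm.1 (he j).1).1.1; omega
    have hDW : ∀ j, (Nat.lcm (d j) (e j)).Coprime W := fun j => adm_lcm_coprime (hd j).1 (he j).1 (hEW j)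
    have hDsq : ∀ j, Squarefree (Nat.lcm (d j) (e j)) := fun j =>
      sqf_lcm (mem_adm.1 (hd j).1).2.1 (mem_adm.1 (he j).1).2.1
    rw [Finset.mem_filter]
    constructor
    · rw [Fintype.mem_piFinset]
      intro j
      have hle : ∀ (m : ℕ) (c : ℝ), 0 < m → Real.log m ≤ L * c → (m : ℝ) ≤ X ^ (θ * c) := by
        intro m c hm hlog
        have hm0 : (0 : ℝ) < m := by exact_mod_cast hm
        have h2 := (Real.log_le_iff_le_exp hm0).1 hlog
        rw [Real.rpow_def_of_pos hX]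
        have e1 : Real.log X * (θ * c) = L * c := by rw [hLθ]; ring
        rw [e1]
        exact h2
      refine Fin.addCases (fun j => ?_) (fun j => ?_) j
      · simp only [Fin.append_left, tq, Finset.mem_Icc]
        refine ⟨Nat.pos_of_ne_zero (hd0 j), Nat.le_floor ?_⟩
        exact hle _ _ (Nat.pos_of_ne_zero (hd0 j)) (hd j).2
      · simp only [Fin.append_right, tq, Finset.mem_Icc]
        have hpos : 0 < e j / Nat.gcd (d j) (e j) :=
          Nat.div_pos (Nat.le_of_dvd (Nat.pos_of_ne_zero (he0 j)) (Nat.gcd_dvd_right _ _))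
            (Nat.gcd_pos_of_pos_right _ (Nat.pos_of_ne_zero (he0 j)))
        refine ⟨hpos, Nat.le_floor ?_⟩
        have h3 : ((e j / Nat.gcd (d j) (e j) : ℕ) : ℝ) ≤ (e j : ℝ) := by
          exact_mod_cast Nat.div_le_self _ _
        exact h3.trans (hle _ _ (Nat.pos_of_ne_zero (he0 j)) (he j).2)
    · rw [Pr_tq, Nat.squarefree_mul_iff]
      refine ⟨Nat.Coprime.prod_right fun j _ => (hDW j).symm, hW, squarefree_prod _ hPC hDsq⟩
  · intro d hd e he hPC
    rw [mem_supp] at hd he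
    have hDW : ∀ j, (Nat.lcm (d j) (e j)).Coprime W := fun j => adm_lcm_coprime (hd j).1 (he j).1 (hEW j)
    have hDsq : ∀ j, Squarefree (Nat.lcm (d j) (e j)) := fun j =>
      sqf_lcm (mem_adm.1 (hd j).1).2.1 (mem_adm.1 (he j).1).2.1
    have hsq : Squarefree (W * Pr (tq d e)) := by
      rw [Pr_tq, Nat.squarefree_mul_iff]
      exact ⟨Nat.Coprime.prod_right fun j _ => (hDW j).symm, hW, squarefree_prod _ hPC hDsq⟩
    have hb' := hbq (tq d e) hsq
    have e1 : Err ⌊3 * X⌋₊ (fun n => if n ≡ b [MOD W] then Phi (n / X) * ArithmeticFunction.vonMangoldt n else 0)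
      (fun n j => n + s j) (LPhi X * (1 / W.totient)) (fun p _ => 1 / ((p : ℝ) - 1)) d e =
        EPhi X (W * Pr (tq d e)) (bq (tq d e)) := by
      rw [EPhi_eq]
      unfold Err
      rw [if_pos hPC]
      congr 1
      · rw [Finset.sum_filter]
        refine Finset.sum_congr rfl fun n _ => ?_
        by_cases hn : n ≡ bq (tq d e) [MOD (W * Pr (tq d e))]
        · have h3 := (hb' n).1 hn
          have hDC : DC (fun j => (n : ℤ) + s j) d e := (Cd_tq s d e hDsq n).1 h3.2
          simp only [if_pos hn, if_pos hDC, if_pos h3.1]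
        · rw [if_neg hn]
          by_cases hDC : DC (fun j => (n : ℤ) + s j) d e
          · rw [if_pos hDC]
            have hna : ¬ n ≡ b [MOD W] := fun hna => hn ((hb' n).2 ⟨hna, (Cd_tq s d e hDsq n).2 hDC⟩)
            simp only [if_neg hna]
          · rw [if_neg hDC]
      · rw [mul_assoc]
        congr 1
        rw [Pr_tq]
        have hcopW : W.Coprime (∏ j, Nat.lcm (d j) (e j)) := Nat.Coprime.prod_right fun j _ => (hDW j).symm
        rw [Nat.totient_mul hcopW, totient_prod _ hPC]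
        have : ∀ j : Fin J, ∏ p ∈ (Nat.lcm (d j) (e j)).primeFactors, (1 : ℝ) / ((p : ℝ) - 1) =
            1 / ((Nat.lcm (d j) (e j)).totient : ℝ) := by
          intro j
          rw [totient_sqf (hDsq j), Finset.prod_div_distrib, Finset.prod_const_one]
        simp_rw [this]
        rw [Finset.prod_div_distrib, Finset.prod_const_one]
        push_cast
        rw [one_div_mul_one_div]
    rw [e1]
  · intro d hd e he hPC
    rw [mem_supp] at hd he
    rw [not_PC_err _ _ _ _ (fun j => (hd j).1) (fun j => (he j).1) _ hPC]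
    · norm_num
    · intro i j hij p hp hpi hpj n _ _
      exact hres i j hij p hp hpi hpj n

/-- the residue classes exist -/
theorem exists_Cls {K : ℕ} (h : Fin K → ℤ) (W b : ℕ) (hW : W ≠ 0) :
    ∃ bq : (Fin K → ℕ) → ℕ, Cls h W b bq := by
  have key : ∀ q : Fin K → ℕ, ∃ r : ℕ, Squarefree (W * Pr q) →
      ∀ n : ℕ, (n ≡ r [MOD (W * Pr q)] ↔ n ≡ b [MOD W] ∧ Cd h q n) := by
    intro q
    by_cases hq : Squarefree (W * Pr q)
    · rw [Nat.squarefree_mul_iff] at hq
      have hq0 : ∀ j, q j ≠ 0 := by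
        intro j hj
        apply hq.2.2.ne_zero
        unfold Pr
        exact Finset.prod_eq_zero (Finset.mem_univ j) hj
      have hpc : Pairwise (fun i j => (q i).Coprime (q j)) := by
        intro i j hij
        have h1 : q i * q j ∣ Pr q := by
          unfold Pr
          rw [← Finset.mul_prod_erase _ _ (Finset.mem_univ i)]
          exact Nat.mul_dvd_mul_left _ (Finset.dvd_prod_of_mem _ (Finset.mem_erase.2 ⟨hij.symm, Finset.mem_univ j⟩))
        exact Nat.coprime_of_squarefree_mul (hq.2.2.squarefree_of_dvd h1)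
      have hqW : ∀ j, (q j).Coprime W := by
        intro j
        have h1 : q j ∣ Pr q := Finset.dvd_prod_of_mem _ (Finset.mem_univ j)
        exact (Nat.Coprime.coprime_dvd_right h1 hq.1).symm
      obtain ⟨r, hr⟩ := class_exists W b hW q (fun _ => 1) h hq0 hpc hqW (fun _ => Nat.coprime_one_left _)
      refine ⟨r, fun _ n => ?_⟩
      have := hr n
      simp only [Nat.cast_one, one_mul] at this
      exact this.symm
    · exact ⟨0, fun h => absurd h hq⟩
  choose bq hbq using key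
  exact ⟨bq, fun q hq n => hbq q hq n⟩

/-- monotonicity of the condition on the exponents -/
theorem GoodT_mono {K : ℕ} {δ : ℝ} {t t' : Fin K → ℝ} (h : GoodT δ t) (ht : ∀ j, t' j ≤ t j) : GoodT δ t' :=
  fun x hx hs ν h1 h2 => h x (fun j => ⟨(hx j).1, (hx j).2.trans (ht j)⟩) hs ν h1 h2

end P2

end Pool.Agent.Y826.Z
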