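import Mathlib
import Pool.Agent.Y826.Z.P2a

/-! Project Y826/Z, task P2 (helper837): pair asymptotics over the primes `n + h i` beyond the
level `1/2`. -/

open Finset Filter

namespace Pool.Agent.Y826.Z

open Pool.Agent.H95R2.BG Pool.Agent.H378R2

namespace P2

/-- `shift_bound` for functions which are bounded on `(X, 4 X]` -/
theorem shift_local (X : ℝ) (hX : 4 ≤ X) (W a0 t : ℕ) (htX : (t : ℝ) ≤ X / 2) (P : ℕ → ℝ) (M : ℝ)
    (hM0 : 0 ≤ M) (hM : ∀ n : ℕ, X < n → (n : ℝ) ≤ 4 * X → |P n| ≤ M) :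
    |∑ n ∈ Icc 1 ⌊3 * X⌋₊, nu X W a0 n * th (n + t) * P (n + t) -
      ∑ n ∈ Icc 1 ⌊3 * X⌋₊, (if n ≡ a0 + t [MOD W] then Phi (n / X) * ArithmeticFunction.vonMangoldt n else 0) * P n| ≤
    M * ((4 * t) * Real.log (4 * X) + 4 * Real.sqrt X * Real.log (4 * X)) := by
  classical
  have ht0 : (0 : ℝ) ≤ t := Nat.cast_nonneg t
  set P' : ℕ → ℝ := fun n => if X < (n : ℝ) ∧ (n : ℝ) ≤ 4 * X then P n else 0 with hP'
  have h := shift_bound X hX W a0 t htX P' M (by
    intro n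
    simp only [hP']
    split_ifs with hn
    · exact hM n hn.1 hn.2
    · rw [abs_zero]; exact hM0)
  have e1 : ∑ n ∈ Icc 1 ⌊3 * X⌋₊, nu X W a0 n * th (n + t) * P' (n + t) =
      ∑ n ∈ Icc 1 ⌊3 * X⌋₊, nu X W a0 n * th (n + t) * P (n + t) := by
    refine Finset.sum_congr rfl fun n hn => ?_
    rw [Finset.mem_Icc] at hn
    have hn3 : (n : ℝ) ≤ 3 * X := le_trans (by exact_mod_cast hn.2) (Nat.floor_le (by linarith))
    by_cases hnX : (n : ℝ) ≤ X
    · have h0 : nu X W a0 n = 0 := by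
        unfold nu
        rw [Phi_eq_zero_of_le (by positivity) (by rw [div_le_one (by linarith)]; exact hnX), ite_self]
      rw [h0]; ring
    · push Not at hnX
      simp only [hP']
      rw [if_pos ⟨by push_cast; linarith, by push_cast; linarith⟩]
  have e2 : ∑ n ∈ Icc 1 ⌊3 * X⌋₊, (if n ≡ a0 + t [MOD W] then Phi (n / X) * ArithmeticFunction.vonMangoldt n else 0) * P' n =
      ∑ n ∈ Icc 1 ⌊3 * X⌋₊, (if n ≡ a0 + t [MOD W] then Phi (n / X) * ArithmeticFunction.vonMangoldt n else 0) * P n := by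
    refine Finset.sum_congr rfl fun n hn => ?_
    rw [Finset.mem_Icc] at hn
    have hn3 : (n : ℝ) ≤ 3 * X := le_trans (by exact_mod_cast hn.2) (Nat.floor_le (by linarith))
    by_cases hnX : (n : ℝ) ≤ X
    · rw [Phi_eq_zero_of_le (by positivity) (by rw [div_le_one (by linarith)]; exact hnX)]
      simp
    · push Not at hnX
      have hh : P' n = P n := by
        simp only [hP']
        rw [if_pos ⟨hnX, by linarith⟩]
      rw [hh]
  rw [e1, e2] at h
  exact h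

/-- the divisor bound for the products of the truncated divisor sums -/
theorem prod_bound {K0 : ℕ} (τ : ℝ) (D : ℕ) (F G : Fin K0 → ℝ → ℝ) (hF : ∀ j x, |F j x| ≤ 1)
    (hG : ∀ j x, |G j x| ≤ 1) (s : Fin K0 → ℤ) :
    ∀ᶠ X : ℝ in atTop, ∀ n : ℕ, X < n → (n : ℝ) ≤ 4 * X →
      |∏ j, (vv τ D X (F j) ((n : ℤ) + s j) * vv τ D X (G j) ((n : ℤ) + s j))| ≤ X ^ (1 / 4 : ℝ) := by
  classical
  have hK : (0 : ℝ) < (K0 : ℝ) + 1 := by positivity
  set e : ℝ := 1 / (16 * ((K0 : ℝ) + 1)) with he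
  have he0 : 0 < e := by positivity
  obtain ⟨C, hC0, hC⟩ := Pool.Agent.Helper112.divisor_bound e he0
  have ev1 : ∀ᶠ X : ℝ in atTop, (((∑ j, |s j| : ℤ) : ℝ)) + 1 ≤ X := eventually_ge_atTop _
  have ev2 : ∀ᶠ X : ℝ in atTop, C * (5 : ℝ) ^ e ≤ X ^ e :=
    (tendsto_rpow_atTop he0).eventually_ge_atTop _
  filter_upwards [ev1, ev2, eventually_ge_atTop (1 : ℝ)] with X hX1 hX2 hX0 n hn hn4
  have hX : 0 < X := by linarith
  have hv : ∀ (f : ℝ → ℝ), (∀ x, |f x| ≤ 1) → ∀ j, |vv τ D X f ((n : ℤ) + s j)| ≤ X ^ (2 * e) := by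
    intro f hf j
    have h1 : ((|s j| : ℤ) : ℝ) ≤ ((∑ j, |s j| : ℤ) : ℝ) := by
      exact_mod_cast Finset.single_le_sum (f := fun j => |s j|) (fun i _ => abs_nonneg _) (Finset.mem_univ j)
    rw [Int.cast_abs] at h1
    have h2 := abs_le.1 (h1.trans (by linarith : ((∑ j, |s j| : ℤ) : ℝ) ≤ X - 1))
    have hpos : 0 < (n : ℤ) + s j := by
      have : (0 : ℝ) < (((n : ℤ) + s j : ℤ) : ℝ) := by push_cast; linarith [h2.1]
      exact_mod_cast this
    obtain ⟨m, hm⟩ := Int.eq_ofNat_of_zero_le hpos.le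
    have hm1 : 1 ≤ m := by omega
    have hmr : (m : ℝ) = (n : ℝ) + (s j : ℝ) := by
      have : (((n : ℤ) + s j : ℤ) : ℝ) = ((m : ℤ) : ℝ) := by rw [hm]
      push_cast at this
      exact this.symm
    refine (X1_vv_le τ D X f hf m hm1 _ hm).trans ((hC m hm1).trans ?_)
    have h5 : (m : ℝ) ≤ 5 * X := by rw [hmr]; linarith [h2.2]
    calc C * (m : ℝ) ^ e ≤ C * (5 * X) ^ e := by
          apply mul_le_mul_of_nonneg_left _ hC0.le
          exact Real.rpow_le_rpow (Nat.cast_nonneg _) h5 he0.le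
      _ = (C * (5 : ℝ) ^ e) * X ^ e := by rw [Real.mul_rpow (by norm_num) hX.le]; ring
      _ ≤ X ^ e * X ^ e := mul_le_mul_of_nonneg_right hX2 (by positivity)
      _ = X ^ (2 * e) := by rw [← Real.rpow_add hX]; congr 1; ring
  rw [Finset.abs_prod]
  have h1 : ∀ j, |vv τ D X (F j) ((n : ℤ) + s j) * vv τ D X (G j) ((n : ℤ) + s j)| ≤ X ^ (4 * e) := by
    intro j
    rw [abs_mul]
    calc _ ≤ X ^ (2 * e) * X ^ (2 * e) := mul_le_mul (hv _ (hF j) j) (hv _ (hG j) j) (abs_nonneg _) (by positivity)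
      _ = X ^ (4 * e) := by rw [← Real.rpow_add hX]; congr 1; ring
  calc ∏ j, |vv τ D X (F j) ((n : ℤ) + s j) * vv τ D X (G j) ((n : ℤ) + s j)|
      ≤ ∏ _j : Fin K0, X ^ (4 * e) := Finset.prod_le_prod (fun _ _ => abs_nonneg _) fun j _ => h1 j
    _ = X ^ (4 * e * K0) := by
        rw [Finset.prod_const, Finset.card_univ, Fintype.card_fin, ← Real.rpow_natCast, ← Real.rpow_mul hX.le]
    _ ≤ X ^ (1 / 4 : ℝ) := by
        apply Real.rpow_le_rpow_of_exponent_le hX0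
        rw [he]
        have : 4 * (1 / (16 * ((K0 : ℝ) + 1))) * K0 = (1 / 4) * (K0 / (K0 + 1)) := by field_simp; ring
        rw [this]
        have h2 : (K0 : ℝ) / (K0 + 1) ≤ 1 := by rw [div_le_one hK]; linarith
        linarith

end P2

/-- the case of total length beyond `2` -/
theorem p2_beyond (hZ : S_ZZ) {K0 : ℕ} (τ : ℝ) (hτ : 0 < τ) (hτ' : τ < 1 / 8) (F G : Fin K0 → ℝ → ℝ)
    (cF cG : Fin K0 → ℝ)
    (hF : ∀ j, GF (F j) (cF j)) (hG : ∀ j, GF (G j) (cG j)) (hsum : ∑ j, cF j + ∑ j, cG j ≤ 54 / 25)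
    (hT : ∃ δ : ℝ, 0 < δ ∧ GoodT δ (tp cF cG))
    (ε : ℝ) (hε : 0 < ε) :
    ∃ D0 : ℕ, ∀ D : ℕ, D0 ≤ D → ∀ h : Fin (K0 + 1) → ℕ, Sep D h → ∀ (i : Fin (K0 + 1)) (a : ℕ),
      (a + h i).Coprime (WD D) → ∀ᶠ X : ℝ in atTop,
      |∑ n ∈ Icc 1 ⌊3 * X⌋₊, nu X (WD D) a n * th (n + h i) *
          ∏ j : Fin K0, (vv τ D X (F j) ((n : ℤ) + hrem h i j) * vv τ D X (G j) ((n : ℤ) + hrem h i j)) -
        NN τ D X (K0 + 1) * Real.log X * ((1 / 4 - τ) * ∏ j, DD (F j) (G j))| ≤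
      ε * (NN τ D X (K0 + 1) * Real.log X) := by
  obtain ⟨δ, hδ, hS⟩ := sieve_asymp K0 F G (fun j => (hF j).smooth) (fun j => (hG j).smooth)
    (fun j => (hF j).compact) (fun j => (hG j).compact) (ε / 8) (by positivity)
  refine ⟨⌈1 / δ⌉₊, fun D hD h hsep i a hcop => ?_⟩
  set P := ∏ j, DD (F j) (G j) with hP
  have hτ4 : τ < 1 / 4 := by linarith
  have hLt := Lt_tendsto hτ4
  have hnot : ∀ p : ℕ, p.Prime → p ∉ PD D → D < p := by
    intro p hp hpE
    by_contra hc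
    push Not at hc
    exact hpE (mem_PD' hp hc)
  -- the data for the equidistribution
  set s : Fin K0 → ℤ := fun j => (hrem h i j : ℤ) - h i with hs
  have hHyp : Hyp (Fin.append s s) (WD D) (a + h i) := by
    refine ⟨WD_pos D, WD_squarefree D, hcop, ?_⟩
    intro p hp hpW
    have hpD : D < p := hnot p hp (fun hmem => hpW ((prime_dvd_WD hp).2 hmem))
    intro j
    refine Fin.addCases (fun j => ?_) (fun j => ?_) j
    · rw [Fin.append_left]
      exact hsep _ _ (Fin.succAbove_ne i j) p hp hpD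
    · rw [Fin.append_right]
      exact hsep _ _ (Fin.succAbove_ne i j) p hp hpD
  obtain ⟨bq, hbq⟩ := P2.exists_Cls (Fin.append s s) (WD D) (a + h i) (WD_pos D).ne'
  set t : Fin (K0 + K0) → ℝ := fun j => (1 / 4 - τ) * (Fin.append cF cG : Fin (K0 + K0) → ℝ) j with ht
  have hc0 : ∀ j, 0 ≤ (Fin.append cF cG : Fin (K0 + K0) → ℝ) j := by
    intro j
    refine Fin.addCases (fun j => ?_) (fun j => ?_) j
    · rw [Fin.append_left]; exact (hF j).nonneg
    · rw [Fin.append_right]; exact (hG j).nonneg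
  have ht0 : ∀ j, 0 ≤ t j := fun j => mul_nonneg (by linarith) (hc0 j)
  have htp : ∀ j, tp cF cG j = (Fin.append cF cG : Fin (K0 + K0) → ℝ) j / 4 := by
    intro j
    unfold tp
    refine Fin.addCases (fun j => ?_) (fun j => ?_) j
    · rw [Fin.append_left, Fin.append_left]
    · rw [Fin.append_right, Fin.append_right]
  have ht1 : ∀ j, t j ≤ tp cF cG j := by
    intro j
    rw [htp j]
    have := hc0 j
    simp only [ht]
    nlinarith
  have htsum : ∑ j, t j ≤ 27 / 50 := by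
    have h1 : ∑ j, t j ≤ ∑ j, tp cF cG j := Finset.sum_le_sum fun j _ => ht1 j
    have h2 : ∑ j, tp cF cG j = (∑ j, cF j + ∑ j, cG j) / 4 := by
      rw [Fin.sum_univ_add]
      unfold tp
      simp only [Fin.append_left, Fin.append_right]
      rw [← Finset.sum_div, ← Finset.sum_div]
      ring
    linarith
  have hGT : ∃ δ : ℝ, 0 < δ ∧ GoodT δ t := by
    obtain ⟨δ', h1, h2⟩ := hT
    exact ⟨δ', h1, P2.GoodT_mono h2 ht1⟩
  have e5 := hZ (K0 + K0) (Fin.append s s) (WD D) (a + h i) hHyp t ht0 htsum hGT bq hbq (K0 + 1) (2 * K0)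
  have e7 := P2.prod_bound τ D F G (fun j => (hF j).bdd) (fun j => (hG j).bdd) s
  have e1 : ∀ᶠ X : ℝ in atTop, ∑ p ∈ PD D, Real.log p / p ≤ (Lt τ X) ^ (1 / 4 : ℝ) :=
    ((tendsto_rpow_atTop (by norm_num)).comp hLt).eventually_ge_atTop _
  have e2 : ∀ᶠ X : ℝ in atTop, ∑ p ∈ PD D, (1 : ℝ) / p ≤ Real.log (Lt τ X) / 32 :=
    ((Real.tendsto_log_atTop.comp hLt).atTop_div_const (by norm_num)).eventually_ge_atTop _
  have e3 := S2.err1 hτ hτ' D K0 (ε / 4) (by positivity)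
  have e4 := S2.err2 (by norm_num : (0 : ℝ) < 1 / 8) K0 (h i)
  have hPP : 0 < 80 * (|P| + 1) := by positivity
  have e6 := Pool.Agent.H510R2.Maier.lphi_mphi (min (1 / 20) (ε / (80 * (|P| + 1)))) (by positivity)
  filter_upwards [e1, e2, e3, e4, e5, e6, hLt.eventually_ge_atTop 1, hLt.eventually_ge_atTop (1 / δ),
    eventually_ge_atTop 40, eventually_ge_atTop (2 * (h i : ℝ)), e7] with X h1 h2 h3 h4 h5' h6 h7 h8 hX hX2 h9'
  have hW : (0 : ℝ) < WD D := by exact_mod_cast WD_pos D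
  have hφ : (0 : ℝ) < ((WD D).totient : ℝ) := by exact_mod_cast Nat.totient_pos.2 (WD_pos D)
  have hB := BE_PD_pos D
  have hL : 0 < Lt τ X := by linarith
  have hX0 : 0 < X := by linarith
  have hMge := MPhi_ge X hX
  have hM : 0 < MPhi X := by linarith
  have hlog : 0 < Real.log X := Real.log_pos (by linarith)
  -- step 1: shift
  set Pf : ℕ → ℝ := fun n => ∏ j : Fin K0, (VVm (PD D) (Rt τ X) (Lt τ X) (F j)
      ((n : ℤ) + s j) *
    VVm (PD D) (Rt τ X) (Lt τ X) (G j) ((n : ℤ) + s j)) with hPf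
  have s1 := P2.shift_local X (by linarith) (WD D) a (h i) (by linarith) Pf (X ^ (1 / 4 : ℝ)) (by positivity)
    (fun n hn hn4 => h9' n hn hn4)
  have hx14 : Real.exp (2 * Lt (1 / 8) X) = X ^ (1 / 4 : ℝ) := by
    rw [S2.exp_two_Lt (1 / 8) X hX0]; norm_num
  rw [hx14] at h4
  have s1' : ∑ n ∈ Icc 1 ⌊3 * X⌋₊, nu X (WD D) a n * th (n + h i) *
          ∏ j : Fin K0, (vv τ D X (F j) ((n : ℤ) + hrem h i j) * vv τ D X (G j) ((n : ℤ) + hrem h i j)) =
      ∑ n ∈ Icc 1 ⌊3 * X⌋₊, nu X (WD D) a n * th (n + h i) * Pf (n + h i) := by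
    refine Finset.sum_congr rfl fun n _ => ?_
    congr 1
    rw [hPf]
    refine Finset.prod_congr rfl fun j _ => ?_
    have : (((n + h i : ℕ) : ℤ)) + s j = (n : ℤ) + hrem h i j := by
      rw [hs]
      push_cast; ring
    rw [this]
    rfl
  -- step 2: sieve
  have s2 := P2.sum2T X hX0 (WD D) (a + h i) (WD_squarefree D) F G (1 / 4 - τ) (Lt τ X) rfl hL cF cG
    (fun j => (hF j).bdd) (fun j => (hG j).bdd) (fun j => (hF j).zero) (fun j => (hG j).zero)
    (fun _ => PD D) (Rt τ X) s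
    (fun _ p hp hpD hdvd => hpD ((prime_dvd_WD hp).1 hdvd))
    (by
      intro j k hjk p hp hpE _ n hh
      have hne : i.succAbove j ≠ i.succAbove k := fun h => hjk (Fin.succAbove_right_injective h)
      apply hsep _ _ hne p hp (hnot p hp hpE)
      have := dvd_sub hh.1 hh.2
      have h8 : (n : ℤ) + s j - (n + s k) =
        h (i.succAbove j) - h (i.succAbove k) := by rw [hs]; unfold hrem; ring
      rwa [h8] at this)
    bq hbq
  have s3 : ∑ n ∈ Icc 1 ⌊3 * X⌋₊, (if n ≡ a + h i [MOD WD D] then Phi (n / X) *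
      ArithmeticFunction.vonMangoldt n else 0) * Pf n =
      ∑ n ∈ Icc 1 ⌊3 * X⌋₊, (if n ≡ a + h i [MOD WD D] then Phi (n / X) *
        ArithmeticFunction.vonMangoldt n else 0) *
        ∏ j : Fin K0, (VVm (PD D) (Rt τ X) (Lt τ X) (F j) (n + s j) *
          VVm (PD D) (Rt τ X) (Lt τ X) (G j) (n + s j)) := rfl
  rw [← s3] at s2
  have s4 : ∑ q ∈ (Fintype.piFinset (fun j => Icc 1 ⌊X ^ ((1 / 4 - τ) *
        (Fin.append cF cG : Fin (K0 + K0) → ℝ) j)⌋₊)).filter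
      (fun q => Squarefree (WD D * Pr q)), tau (Pr q) ^ (2 * K0) * |EPhi X (WD D * Pr q) (bq q)| ≤
      X / (Real.log X) ^ (K0 + 1) := by
    refine le_trans (le_of_eq ?_) h5'
    refine Finset.sum_congr ?_ fun q _ => rfl
    ext q
    simp only [Finset.mem_filter, ht]
  -- step 3: asymptotics
  have s5 := hS (Lt τ X) (fun _ => PD D) (fun p _ => 1 / ((p : ℝ) - 1)) (Rt τ X) h8
    (by
      intro j x hx
      have h7 : 2 < x := lt_of_le_of_lt (Rt_ge h7) hx
      exact ⟨(hF j).zero x (lt_of_le_of_lt (hF j).le_two h7),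
        (hG j).zero x (lt_of_le_of_lt (hG j).le_two h7)⟩)
    (fun _ p hp => (mem_PD.1 hp).2)
    (by
      intro _ p hp hpl
      apply mem_PD' hp
      have : (p : ℝ) ≤ ⌈1 / δ⌉₊ := hpl.trans (Nat.le_ceil (1 / δ))
      have : p ≤ ⌈1 / δ⌉₊ := by exact_mod_cast this
      omega)
    (fun _ => h1) (fun _ => h2) (fun _ p hp _ => w_two hp)
  have k3 : ∏ j : Fin K0, (Lt τ X * ∏ p ∈ PD D, (1 - 1 / (p : ℝ))) = (Lt τ X * BE (PD D)) ^ K0 := by
    rw [Finset.prod_const, Finset.card_univ, Fintype.card_fin]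
    rfl
  rw [k3] at s5
  set SS := sieveSum K0 F G (Lt τ X) (fun _ => PD D) (fun p _ => 1 / ((p : ℝ) - 1)) (Rt τ X) with hSS
  have s5' : |(Lt τ X * BE (PD D)) ^ K0 * SS - P| ≤ ε / 8 := s5
  set Q : ℝ := (1 / ((WD D).totient : ℝ)) * (1 / (Lt τ X * BE (PD D)) ^ K0) with hQ
  have hQ0 : 0 < Q := by positivity
  have hLP0 : 0 ≤ LPhi X := by
    unfold LPhi
    exact Finset.sum_nonneg fun n _ => mul_nonneg (Phi_nonneg _) ArithmeticFunction.vonMangoldt_nonneg
  have s6 : |(LPhi X * (1 / ((WD D).totient : ℝ))) * SS - LPhi X * Q * P| ≤ LPhi X * Q * (ε / 8) := by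
    have : (LPhi X * (1 / ((WD D).totient : ℝ))) * SS - LPhi X * Q * P =
      LPhi X * Q * ((Lt τ X * BE (PD D)) ^ K0 * SS - P) := by
      rw [hQ]
      have : (Lt τ X * BE (PD D)) ^ K0 ≠ 0 := by positivity
      field_simp
    rw [this, abs_mul, abs_of_nonneg (by positivity)]
    exact mul_le_mul_of_nonneg_left s5' (by positivity)
  -- step 4: `LPhi` and `MPhi`
  have h6a : |LPhi X - MPhi X| ≤ 1 / 20 * X :=
    h6.trans (mul_le_mul_of_nonneg_right (min_le_left _ _) hX0.le)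
  have h6b : |LPhi X - MPhi X| ≤ ε / (80 * (|P| + 1)) * X :=
    h6.trans (mul_le_mul_of_nonneg_right (min_le_right _ _) hX0.le)
  have hLP2 : LPhi X ≤ 2 * MPhi X := by
    have := (abs_le.1 h6a).2
    linarith
  have s7 : |LPhi X * Q * P - MPhi X * Q * P| ≤ ε / 4 * (MPhi X * Q) := by
    have e : LPhi X * Q * P - MPhi X * Q * P = (LPhi X - MPhi X) * (Q * P) := by ring
    rw [e, abs_mul, abs_mul, abs_of_pos hQ0]
    have h9 : |LPhi X - MPhi X| * |P| ≤ ε / 4 * MPhi X := by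
      calc |LPhi X - MPhi X| * |P| ≤ ε / (80 * (|P| + 1)) * X * |P| :=
            mul_le_mul_of_nonneg_right h6b (abs_nonneg _)
        _ = ε / 80 * X * (|P| / (|P| + 1)) := by field_simp
        _ ≤ ε / 80 * X * 1 := by
            apply mul_le_mul_of_nonneg_left _ (by positivity)
            rw [div_le_one (by positivity)]
            linarith
        _ ≤ ε / 4 * MPhi X := by nlinarith
    calc |LPhi X - MPhi X| * (Q * |P|) = (|LPhi X - MPhi X| * |P|) * Q := by ring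
      _ ≤ ε / 4 * MPhi X * Q := mul_le_mul_of_nonneg_right h9 hQ0.le
      _ = _ := by ring
  -- step 5: the normalisation
  have hL0 : Lt τ X = (1 / 4 - τ) * Real.log X := rfl
  have hNN : NN τ D X (K0 + 1) * Real.log X * (1 / 4 - τ) = MPhi X * Q := by
    have h9 : NN τ D X (K0 + 1) * Real.log X * (1 / 4 - τ) = NN τ D X (K0 + 1) * Lt τ X := by
      rw [hL0]; ring
    rw [h9, hQ, totient_WD]
    unfold NN
    rw [one_div_pow, pow_succ]
    field_simp
  have hNN' : MPhi X * Q ≤ NN τ D X (K0 + 1) * Real.log X := by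
    rw [← hNN]
    have h9 : 0 ≤ NN τ D X (K0 + 1) * Real.log X := by
      unfold NN
      positivity
    nlinarith
  have s8 : MPhi X * Q * P = NN τ D X (K0 + 1) * Real.log X * ((1 / 4 - τ) * P) := by
    rw [← hNN]; ring
  have s9 : LPhi X * Q * (ε / 8) ≤ ε / 4 * (MPhi X * Q) := by
    have : LPhi X * (Q * ε) ≤ 2 * MPhi X * (Q * ε) := mul_le_mul_of_nonneg_right hLP2 (by positivity)
    linarith
  have hfin : ε * (MPhi X * Q) ≤ ε * (NN τ D X (K0 + 1) * Real.log X) :=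
    mul_le_mul_of_nonneg_left hNN' hε.le
  rw [s1', ← s8]
  have t1 := abs_le.1 s1
  have t2 := abs_le.1 s2
  have t6 := abs_le.1 s6
  have t7 := abs_le.1 s7
  rw [abs_le]
  constructor <;> linarith [t1.1, t1.2, t2.1, t2.2, t6.1, t6.2, t7.1, t7.2, s4, h3, h4, s9, hfin]

/-- P2: pair asymptotics beyond the level `1/2` -/
theorem p2 (hZ : S_ZZ) : S_P2 := by
  intro K0 τ hτ hτ' F G cF cG hF hG hor ε hε
  rcases hor with h2 | ⟨h2, h3⟩
  · exact S2pair τ hτ hτ' F G cF cG hF hG h2 ε hε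
  · exact p2_beyond hZ τ hτ hτ' F G cF cG hF hG h2 h3 ε hε

end Pool.Agent.Y826.Z
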